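import Pool.Agent.H620R2.Gauge.S
import Pool.Agent.H620R2.Gauge.A1

/-!
# Coding answers at strings with chosen keys

A sequence of jobs. Job number `t` asks for the answers to finitely many questions (number `e < M t`
and input `x` of length `r t`) about the final oracle; the answers are written at code strings of
length `ℓ t` which contain a key of length `k t`. The key is chosen such that none of the strings on
which the answers of this job and of the former jobs depend is changed.
-/

set_option autoImplicit false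

namespace Pool.Agent.TH707.EC

open Pool.Agent.NPC Pool.Agent.H620R2.Gauge Finset

/-- A sequence of jobs. -/
structure Jobs : Type where
  /-- the number of the languages -/
  M : ℕ → ℕ
  /-- the length of the inputs -/
  r : ℕ → ℕ
  /-- the length of the key -/
  k : ℕ → ℕ
  /-- the length of the code strings -/
  ℓ : ℕ → ℕ
  /-- the questions -/
  Q : ℕ → ℕ → List Bool → Oracle → Prop
  /-- the number of the strings on which the answers depend -/
  u : ℕ → ℕ
  /-- the answers depend on few strings -/
  loc : ∀ (t : ℕ) (A : Oracle), ∃ U : Finset (List Bool), U.card ≤ u t ∧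
    ∀ A' : Oracle, (∀ y ∈ U, A' y = A y) →
      ∀ e < M t, ∀ x : List Bool, x.length = r t → (Q t e x A' ↔ Q t e x A)
  /-- there are enough keys -/
  key : ∀ t, ∑ s ∈ range (t + 1), u s < 2 ^ k t
  /-- the code strings are long enough -/
  len : ∀ t, 2 * (Nat.bits t).length + 1 + k t + M t + 1 + r t ≤ ℓ t
  /-- the number of a job is at most the length of the code strings -/
  le : ∀ t, t ≤ ℓ t

/-- the part of a code string before the input -/
def Jobs.pfx (_J : Jobs) (t : ℕ) (w : List Bool) (e : ℕ) : List Bool :=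
  pairBits (Nat.bits t) (w ++ (List.replicate e true ++ [false]))

/-- the number of bits after the input -/
def Jobs.pad (J : Jobs) (t : ℕ) (e : ℕ) : ℕ :=
  J.ℓ t - (2 * (Nat.bits t).length + 1 + J.k t + e + 1 + J.r t)

/-- The code string for question `e`, input `x` and key `w` of job `t`. -/
def Jobs.cd (J : Jobs) (t : ℕ) (w : List Bool) (e : ℕ) (x : List Bool) : List Bool :=
  J.pfx t w e ++ x ++ List.replicate (J.pad t e) false

theorem unary_inj : ∀ (a b : ℕ) (l l' : List Bool),
    List.replicate a true ++ false :: l = List.replicate b true ++ false :: l' → a = b ∧ l = l'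
  | 0, 0, l, l', h => by simpa using h
  | 0, b + 1, l, l', h => by simp [List.replicate_succ] at h
  | a + 1, 0, l, l', h => by simp [List.replicate_succ] at h
  | a + 1, b + 1, l, l', h => by
    rw [List.replicate_succ, List.replicate_succ, List.cons_append, List.cons_append,
      List.cons.injEq] at h
    obtain ⟨h1, h2⟩ := unary_inj a b l l' h.2
    exact ⟨by omega, h2⟩

theorem pairBits_append (u v z : List Bool) : pairBits u v ++ z = pairBits u (v ++ z) := by
  unfold pairBits
  rw [List.append_assoc, List.cons_append]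

variable (J : Jobs)

theorem Jobs.length_pfx (t : ℕ) (w : List Bool) (hw : w.length = J.k t) (e : ℕ) :
    (J.pfx t w e).length = 2 * (Nat.bits t).length + 1 + J.k t + e + 1 := by
  unfold Jobs.pfx
  rw [Pool.Agent.H620R2.Gauge.length_pairBits, List.length_append, List.length_append,
    List.length_replicate, List.length_singleton, hw]
  ring

theorem Jobs.length_cd {t : ℕ} {w : List Bool} (hw : w.length = J.k t) {e : ℕ} (he : e < J.M t)
    {x : List Bool} (hx : x.length = J.r t) : (J.cd t w e x).length = J.ℓ t := by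
  unfold Jobs.cd
  rw [List.length_append, List.length_append, J.length_pfx t w hw, List.length_replicate, hx]
  have := J.len t
  unfold Jobs.pad
  omega

theorem Jobs.cd_inj {t t' : ℕ} {w w' : List Bool} {e e' : ℕ} {x x' : List Bool}
    (hw : w.length = J.k t) (hw' : w'.length = J.k t')
    (hx : x.length = J.r t) (hx' : x'.length = J.r t') (h : J.cd t w e x = J.cd t' w' e' x') :
    t = t' ∧ w = w' ∧ e = e' ∧ x = x' := by
  unfold Jobs.cd Jobs.pfx at h
  rw [pairBits_append, pairBits_append, pairBits_append, pairBits_append] at h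
  have h1 := congrArg unpair h
  rw [NPC.unpair_pairBits, NPC.unpair_pairBits, Prod.mk.injEq] at h1
  obtain ⟨h2, h3⟩ := h1
  have ht : t = t' := by
    have := congrArg valB h2
    rwa [valB_bits, valB_bits] at this
  subst ht
  simp only [List.append_assoc, List.cons_append, List.nil_append] at h3
  obtain ⟨h4, h5⟩ := List.append_inj h3 (by rw [hw, hw'])
  obtain ⟨h6, h7⟩ := unary_inj _ _ _ _ h5
  subst h6
  obtain ⟨h8, -⟩ := List.append_inj h7 (by rw [hx, hx'])
  exact ⟨rfl, h4, rfl, h8⟩

/-- the keys of length `n` -/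
noncomputable def keys (n : ℕ) : Finset (List Bool) :=
  (Finset.univ : Finset (Fin n → Bool)).image List.ofFn

theorem mem_keys {n : ℕ} {w : List Bool} : w ∈ keys n ↔ w.length = n := by
  unfold keys
  rw [Finset.mem_image]
  constructor
  · rintro ⟨f, -, rfl⟩
    exact List.length_ofFn
  · intro h
    subst h
    exact ⟨fun i => w.get i, Finset.mem_univ _, List.ofFn_get w⟩

theorem card_keys (n : ℕ) : (keys n).card = 2 ^ n := by
  unfold keys
  rw [Finset.card_image_of_injective _ List.ofFn_injective]
  simp

/-- a key which is not touched by a small set -/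
theorem Jobs.exists_key (t : ℕ) (F : Finset (List Bool)) (hF : F.card < 2 ^ J.k t) :
    ∃ w : List Bool, w.length = J.k t ∧
      ∀ e < J.M t, ∀ x : List Bool, x.length = J.r t → J.cd t w e x ∉ F := by
  classical
  by_contra hcon
  push Not at hcon
  have h1 : ∀ w ∈ keys (J.k t), ∃ y ∈ F, ∃ e x, x.length = J.r t ∧ y = J.cd t w e x := by
    intro w hw
    obtain ⟨e, -, x, hx, h⟩ := hcon w (mem_keys.1 hw)
    exact ⟨_, h, e, x, hx, rfl⟩
  choose! y hy hyF using h1
  have h2 : (keys (J.k t)).card ≤ F.card := by
    refine Finset.card_le_card_of_injOn y (fun w hw => hy w hw) ?_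
    intro w hw w' hw' h
    obtain ⟨e, x, hx, h3⟩ := hyF w hw
    obtain ⟨e', x', hx', h4⟩ := hyF w' hw'
    rw [h3, h4] at h
    exact (J.cd_inj (mem_keys.1 hw) (mem_keys.1 hw') hx hx' h).2.1
  rw [card_keys] at h2
  omega

/-- The state of the construction: the present oracle and the frozen strings. -/
abbrev St : Type := Oracle × Finset (List Bool)

open Classical in
/-- the strings on which the answers of job `t` depend -/
noncomputable def Jobs.U (t : ℕ) (A : Oracle) : Finset (List Bool) := (J.loc t A).choose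

open Classical in
/-- the key for job `t` -/
noncomputable def Jobs.w (t : ℕ) (σ : St) : List Bool :=
  if h : (σ.2 ∪ J.U t σ.1).card < 2 ^ J.k t then (J.exists_key t _ h).choose
  else List.replicate (J.k t) false

open Classical in
/-- one step -/
noncomputable def Jobs.step (t : ℕ) (σ : St) : St :=
  (fun y => if ∃ e < J.M t, ∃ x : List Bool, x.length = J.r t ∧ y = J.cd t (J.w t σ) e x ∧
      J.Q t e x σ.1 then true
    else if ∃ e < J.M t, ∃ x : List Bool, x.length = J.r t ∧ y = J.cd t (J.w t σ) e x then false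
    else σ.1 y, σ.2 ∪ J.U t σ.1)

/-- the states -/
noncomputable def Jobs.st (B : Oracle) : ℕ → St
  | 0 => (B, ∅)
  | t + 1 => J.step t (Jobs.st B t)

theorem Jobs.st_succ (B : Oracle) (t : ℕ) : J.st B (t + 1) = J.step t (J.st B t) := rfl

/-- the key of job `t` in the construction -/
noncomputable def Jobs.kw (B : Oracle) (t : ℕ) : List Bool := J.w t (J.st B t)

theorem Jobs.length_w (t : ℕ) (σ : St) : (J.w t σ).length = J.k t := by
  unfold Jobs.w
  split_ifs with h
  · exact (J.exists_key t _ h).choose_spec.1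
  · exact List.length_replicate

theorem Jobs.card_st (B : Oracle) (t : ℕ) : (J.st B t).2.card ≤ ∑ s ∈ range t, J.u s := by
  classical
  induction t with
  | zero => simp [Jobs.st]
  | succ t ih =>
    rw [sum_range_succ]
    refine (card_union_le _ _).trans ?_
    exact Nat.add_le_add ih (J.loc t (J.st B t).1).choose_spec.1

theorem Jobs.w_spec (B : Oracle) (t : ℕ) :
    ∀ e < J.M t, ∀ x : List Bool, x.length = J.r t →
      J.cd t (J.kw B t) e x ∉ (J.st B (t + 1)).2 := by
  classical
  have h : ((J.st B t).2 ∪ J.U t (J.st B t).1).card < 2 ^ J.k t := by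
    have h1 := J.card_st B (t + 1)
    exact lt_of_le_of_lt h1 (J.key t)
  have h2 : J.kw B t = (J.exists_key t _ h).choose := by
    unfold Jobs.kw Jobs.w
    rw [dif_pos h]
  rw [h2]
  exact (J.exists_key t _ h).choose_spec.2

theorem Jobs.st_mono (B : Oracle) {s t : ℕ} (h : s ≤ t) : (J.st B s).2 ⊆ (J.st B t).2 := by
  induction t, h using Nat.le_induction with
  | base => exact Finset.Subset.refl _
  | succ t _ ih =>
    classical
    exact ih.trans Finset.subset_union_left

/-- the string is a code string of job `t` (under the chosen key) -/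
def Jobs.Cod (B : Oracle) (t : ℕ) (y : List Bool) : Prop :=
  ∃ e < J.M t, ∃ x : List Bool, x.length = J.r t ∧ y = J.cd t (J.kw B t) e x

theorem Jobs.cod_unique {B : Oracle} {s t : ℕ} {y : List Bool} (h1 : J.Cod B s y)
    (h2 : J.Cod B t y) : s = t := by
  obtain ⟨e, he, x, hx, rfl⟩ := h1
  obtain ⟨e', he', x', hx', h⟩ := h2
  exact (J.cd_inj (J.length_w _ _) (J.length_w _ _) hx hx' h).1

theorem Jobs.st_succ_of_not {B : Oracle} {t : ℕ} {y : List Bool} (h : ¬ J.Cod B t y) :
    (J.st B (t + 1)).1 y = (J.st B t).1 y := by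
  classical
  show (J.step t (J.st B t)).1 y = _
  unfold Jobs.step
  dsimp only
  rw [if_neg, if_neg]
  · rintro ⟨e, he, x, hx, h1⟩
    exact h ⟨e, he, x, hx, h1⟩
  · rintro ⟨e, he, x, hx, h1, -⟩
    exact h ⟨e, he, x, hx, h1⟩

theorem Jobs.st_succ_cd {B : Oracle} {t e : ℕ} (he : e < J.M t) {x : List Bool}
    (hx : x.length = J.r t) :
    (J.st B (t + 1)).1 (J.cd t (J.kw B t) e x) = true ↔ J.Q t e x (J.st B t).1 := by
  classical
  show (J.step t (J.st B t)).1 _ = true ↔ _
  unfold Jobs.step
  dsimp only
  constructor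
  · intro h
    by_contra hQ
    rw [if_neg, if_pos] at h
    · exact absurd h (by simp)
    · exact ⟨e, he, x, hx, rfl⟩
    · rintro ⟨e', he', x', hx', h1, h2⟩
      obtain ⟨-, -, rfl, rfl⟩ := J.cd_inj (J.length_w _ _) (J.length_w _ _) hx hx' h1
      exact hQ h2
  · intro h
    rw [if_pos]
    exact ⟨e, he, x, hx, rfl, h⟩

theorem Jobs.st_eq_of_not {B : Oracle} {s t : ℕ} (hst : s ≤ t) {y : List Bool}
    (h : ∀ i, s ≤ i → i < t → ¬ J.Cod B i y) : (J.st B t).1 y = (J.st B s).1 y := by
  induction t, hst using Nat.le_induction with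
  | base => rfl
  | succ t hst ih =>
    rw [J.st_succ_of_not (h t hst (Nat.lt_succ_self t))]
    exact ih fun i h1 h2 => h i h1 (h2.trans (Nat.lt_succ_self t))

open Classical in
/-- the final oracle -/
noncomputable def Jobs.fin (B : Oracle) : Oracle := fun y =>
  if h : ∃ t, J.Cod B t y then (J.st B (h.choose + 1)).1 y else B y

theorem Jobs.fin_of_cod {B : Oracle} {t : ℕ} {y : List Bool} (h : J.Cod B t y) :
    J.fin B y = (J.st B (t + 1)).1 y := by
  classical
  unfold Jobs.fin
  have h1 : ∃ t, J.Cod B t y := ⟨t, h⟩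
  rw [dif_pos h1, J.cod_unique h1.choose_spec h]

theorem Jobs.fin_of_not {B : Oracle} {y : List Bool} (h : ∀ t, ¬ J.Cod B t y) :
    J.fin B y = B y := by
  classical
  unfold Jobs.fin
  rw [dif_neg]
  rintro ⟨t, ht⟩
  exact h t ht

theorem Jobs.fin_eq {B : Oracle} {t : ℕ} {y : List Bool} (h : ∀ i, t ≤ i → ¬ J.Cod B i y) :
    J.fin B y = (J.st B t).1 y := by
  by_cases h1 : ∃ s, J.Cod B s y
  · obtain ⟨s, hs⟩ := h1
    rw [J.fin_of_cod hs]
    have hlt : s < t := by
      by_contra hc
      exact h s (not_lt.1 hc) hs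
    refine (J.st_eq_of_not (Nat.succ_le_of_lt hlt) fun i h2 h3 h4 => ?_).symm
    have := J.cod_unique hs h4
    omega
  · push Not at h1
    rw [J.fin_of_not h1]
    exact (J.st_eq_of_not (Nat.zero_le t) fun i _ _ => h1 i).symm

/-- The coding theorem. -/
theorem Jobs.coding (B : Oracle) : (∀ t, (J.kw B t).length = J.k t) ∧
    (∀ t, ∀ e < J.M t, ∀ x : List Bool, x.length = J.r t →
      (J.fin B (J.cd t (J.kw B t) e x) = true ↔ J.Q t e x (J.fin B))) ∧
    ∀ y, (∀ t, ∀ e < J.M t, ∀ x : List Bool, x.length = J.r t → y ≠ J.cd t (J.kw B t) e x) →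
      J.fin B y = B y := by
  classical
  refine ⟨fun t => J.length_w _ _, ?_, ?_⟩
  · intro t e he x hx
    have hc : J.Cod B t (J.cd t (J.kw B t) e x) := ⟨e, he, x, hx, rfl⟩
    rw [J.fin_of_cod hc, J.st_succ_cd he hx]
    refine ((J.loc t (J.st B t).1).choose_spec.2 (J.fin B) ?_ e he x hx).symm
    intro y hy
    refine J.fin_eq fun i hi hci => ?_
    obtain ⟨e', he', x', hx', h⟩ := hci
    refine J.w_spec B i e' he' x' hx' ?_
    rw [← h]
    refine J.st_mono B (Nat.succ_le_succ hi) ?_
    exact Finset.mem_union_right _ hy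
  · intro y hy
    refine J.fin_of_not fun t ht => ?_
    obtain ⟨e, he, x, hx, h⟩ := ht
    exact hy t e he x hx h

end Pool.Agent.TH707.EC
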