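import Pool.Agent.TH707.EC.Growth
import Pool.Agent.H620R2.Gauge2.Null

/-!
# Null sets from events; transfer to changed strings
-/

set_option autoImplicit false

namespace Pool.Agent.TH707.EC

open Pool.Agent.NPC Pool.Agent.H620R2.Gauge Finset MeasureTheory Filter
open Pool.Agent.W900.CH (Close diffN measure_far ae_far_of card_small card_diffN_le)
open Pool.Agent.H628R3.RO (randomOracle)

/-- The set has a cover of weight at most `δ`. -/
def Cov (f : ℕ → ℝ) (X : Set Oracle) (δ : ℝ) : Prop :=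
  ∃ S : Set (List Bool), (∀ A ∈ X, ∃ σ ∈ S, Extends A σ) ∧
    ∑' σ : S, ENNReal.ofReal (2 ^ (f σ.1.length - σ.1.length)) ≤ ENNReal.ofReal δ

theorem null_of_io {f : ℕ → ℝ} {S : Set Oracle} {P : ℕ → Set Oracle}
    (hS : ∀ A ∈ S, ∃ᶠ n : ℕ in atTop, A ∈ P n)
    (hP : ∀ᶠ n : ℕ in atTop, Cov f (P n) ((1 / 2) ^ n)) : Null f S := by
  intro δ hδ
  obtain ⟨n₀, hn₀⟩ := eventually_atTop.1 hP
  obtain ⟨n₁, hn₁⟩ : ∃ n₁ : ℕ, (1 / 2 : ℝ) ^ n₁ * 2 ≤ δ := by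
    obtain ⟨n, hn⟩ := exists_pow_lt_of_lt_one (show (0 : ℝ) < δ / 2 by linarith)
      (show (1 / 2 : ℝ) < 1 by norm_num)
    exact ⟨n, by linarith⟩
  set m := max n₀ n₁ with hm
  choose T hT1 hT2 using fun i : ℕ => hn₀ (m + i) (by omega)
  refine ⟨⋃ i, T i, ?_, ?_⟩
  · intro A hA
    obtain ⟨n, hn, hAn⟩ := (frequently_atTop.1 (hS A hA)) m
    obtain ⟨i, rfl⟩ : ∃ i, n = m + i := ⟨n - m, by omega⟩
    obtain ⟨σ, hσ, h⟩ := hT1 i A hAn
    exact ⟨σ, Set.mem_iUnion.2 ⟨i, hσ⟩, h⟩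
  · refine (ENNReal.tsum_iUnion_le_tsum (fun σ : List Bool =>
      ENNReal.ofReal (2 ^ (f σ.length - σ.length))) T).trans ?_
    refine (ENNReal.tsum_le_tsum hT2).trans ?_
    have h1 : ∀ i : ℕ, ENNReal.ofReal ((1 / 2 : ℝ) ^ (m + i)) =
        ENNReal.ofReal ((1 / 2 : ℝ) ^ m) * ENNReal.ofReal ((1 / 2) ^ i) := by
      intro i
      rw [← ENNReal.ofReal_mul (by positivity), pow_add]
    simp only [h1]
    rw [ENNReal.tsum_mul_left]
    have h2 : ∑' i : ℕ, ENNReal.ofReal ((1 / 2 : ℝ) ^ i) = ENNReal.ofReal 2 := by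
      rw [← ENNReal.ofReal_tsum_of_nonneg (fun i => by positivity) summable_geometric_two,
        tsum_geometric_two]
    rw [h2, ← ENNReal.ofReal_mul (by positivity)]
    apply ENNReal.ofReal_le_ofReal
    refine le_trans ?_ hn₁
    have h3 : (1 / 2 : ℝ) ^ m ≤ (1 / 2) ^ n₁ :=
      pow_le_pow_of_le_one (by norm_num) (by norm_num) (le_max_right _ _)
    linarith

theorem null_of_ev {f : ℕ → ℝ} {S : Set Oracle} {P : ℕ → Set Oracle}
    (hS : ∀ A ∈ S, ∀ᶠ n : ℕ in atTop, A ∈ P n)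
    (hP : ∀ δ : ℝ, 0 < δ → ∀ n₀ : ℕ, ∃ n ≥ n₀, Cov f (P n) δ) : Null f S := by
  refine (null_iUnion (f := f) (fun n₀ : ℕ => {A : Oracle | ∀ n ≥ n₀, A ∈ P n}) ?_).mono ?_
  · intro n₀ δ hδ
    obtain ⟨n, hn, T, hT1, hT2⟩ := hP δ hδ n₀
    exact ⟨T, fun A hA => hT1 A (hA n hn), hT2⟩
  · intro A hA
    obtain ⟨n₀, hn₀⟩ := eventually_atTop.1 (hS A hA)
    exact Set.mem_iUnion.2 ⟨n₀, hn₀⟩

theorem dist_mono (O A : Oracle) {n m : ℕ} (h : n ≤ m) :
    Pool.Agent.W900.CH.dist O A n ≤ Pool.Agent.W900.CH.dist O A m := by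
  unfold Pool.Agent.W900.CH.dist
  exact Set.ncard_le_ncard (fun x hx => ⟨hx.1.trans h, hx.2⟩)
    (Pool.Agent.W900.CH.finite_diff O A m)

open Classical in
/-- the sets of changed strings that are allowed -/
noncomputable def allow (g : ℕ → ℝ) (n₁ N : ℕ) : Finset (Finset ℕ) :=
  (Finset.range N).powerset.filter fun D => ∀ m : ℕ, n₁ ≤ m → Nat.log 2 N ≤ m → (D.card : ℝ) ≤ g m

theorem mem_allow {g : ℕ → ℝ} {n₁ N : ℕ} {D : Finset ℕ} : D ∈ allow g n₁ N ↔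
    D ⊆ Finset.range N ∧ ∀ m : ℕ, n₁ ≤ m → Nat.log 2 N ≤ m → (D.card : ℝ) ≤ g m := by
  classical
  unfold allow
  rw [Finset.mem_filter, Finset.mem_powerset]

/-- the gauge which belongs to the number of changed strings -/
noncomputable def gau (g : ℕ → ℝ) (n₁ N : ℕ) : ℝ := Real.logb 2 (max 1 ((allow g n₁ N).card : ℝ))

theorem gau_le {g : ℕ → ℝ} {n₁ n m k : ℕ} (h1 : n₁ ≤ m) (h2 : n ≤ m) (hn : 2 ≤ n)
    (hg : g m ≤ (n : ℝ) ^ k) : gau g n₁ (2 ^ n) ≤ (n : ℝ) ^ (k + 2) := by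
  have h3 : ((allow g n₁ (2 ^ n)).card : ℝ) ≤ (2 ^ n + 1) ^ (n ^ k) := by
    have h4 : allow g n₁ (2 ^ n) ⊆
        (Finset.range (2 ^ n)).powerset.filter (fun D => D.card ≤ n ^ k) := by
      intro D hD
      rw [mem_allow] at hD
      rw [Finset.mem_filter, Finset.mem_powerset]
      refine ⟨hD.1, ?_⟩
      have h5 := hD.2 m h1 (by rw [Nat.log_pow (by norm_num)]; exact h2)
      have h6 := h5.trans hg
      exact_mod_cast h6
    have h5 := (Finset.card_le_card h4).trans (card_small (2 ^ n) (n ^ k))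
    exact_mod_cast h5
  have h4 : (1 : ℝ) ≤ (2 ^ n + 1) ^ (n ^ k) := one_le_pow₀ (by
    have : (0 : ℝ) < 2 ^ n := by positivity
    linarith)
  have h5 : max 1 ((allow g n₁ (2 ^ n)).card : ℝ) ≤ (2 : ℝ) ^ ((n + 1) * n ^ k) := by
    refine (max_le h4 h3).trans ?_
    rw [pow_mul]
    refine pow_le_pow_left₀ (by positivity) ?_ _
    have : (1 : ℝ) ≤ 2 ^ n := one_le_pow₀ (by norm_num)
    rw [pow_succ]
    linarith
  unfold gau
  refine (Real.logb_le_logb_of_le (by norm_num) (by positivity) h5).trans ?_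
  rw [Real.logb_pow, Real.logb_self_eq_one (by norm_num), mul_one]
  have h6 : (n + 1) * n ^ k ≤ n ^ (k + 2) := by
    rw [pow_add, mul_comm]
    refine Nat.mul_le_mul_left _ ?_
    nlinarith
  exact_mod_cast h6

theorem condA_gau {g : ℕ → ℝ} (hg : PolyA g) (n₁ : ℕ) : CondA (gau g n₁) := by
  obtain ⟨k, hk⟩ := hg
  refine ⟨k + 2, ?_⟩
  filter_upwards [hk, eventually_ge_atTop (max 2 n₁)] with n h1 h2
  obtain ⟨m, hm, hgm⟩ := h1
  exact ⟨2 ^ n, le_rfl, gau_le (((le_max_right _ _).trans h2).trans hm) hm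
    ((le_max_left _ _).trans h2) hgm⟩

theorem condB_gau {g : ℕ → ℝ} (hg : PolyB g) (n₁ : ℕ) : CondB (gau g n₁) := by
  obtain ⟨k, hk⟩ := hg
  refine ⟨k + 2, ?_⟩
  have h1 : ∃ᶠ n : ℕ in atTop,
      gau g n₁ (2 ^ n) ≤ (Real.logb 2 ((2 ^ n : ℕ) : ℝ)) ^ (k + 2) := by
    refine (hk.and_eventually (eventually_ge_atTop (max 2 n₁))).mono ?_
    rintro n ⟨h2, h3⟩
    have h4 : Real.logb 2 ((2 ^ n : ℕ) : ℝ) = n := by
      push_cast
      rw [Real.logb_pow, Real.logb_self_eq_one (by norm_num), mul_one]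
    rw [h4]
    exact gau_le ((le_max_right _ _).trans h3) le_rfl ((le_max_left _ _).trans h3) h2
  exact (tendsto_pow_atTop_atTop_of_one_lt (by norm_num)).frequently h1

theorem far_aux {S : Set Oracle} {g : ℕ → ℝ} (h : ∀ n₁, Null (gau g n₁) S) :
    ∀ᵐ O ∂randomOracle, ∀ A, Close g O A → A ∉ S := by
  refine ae_far_of fun n₁ => ?_
  refine measure_far (h n₁) _ (allow g n₁) ?_ ?_
  · intro N
    unfold gau
    rw [Real.rpow_logb (by norm_num) (by norm_num) (lt_of_lt_of_le one_pos (le_max_left _ _))]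
    exact le_max_right _ _
  · rintro O ⟨A, hA, hd⟩
    refine ⟨A, hA, fun N => ?_⟩
    rw [mem_allow]
    refine ⟨Finset.filter_subset _ _, fun m h1 h2 => ?_⟩
    refine le_trans ?_ (hd m h1)
    exact_mod_cast (card_diffN_le O A N).trans (dist_mono O A h2)

theorem ae_far_A {S : Set Oracle} (hS : ∀ f, CondA f → Null f S) {g : ℕ → ℝ} (hg : PolyA g) :
    ∀ᵐ O ∂randomOracle, ∀ A, Close g O A → A ∉ S :=
  far_aux fun n₁ => hS _ (condA_gau hg n₁)

theorem ae_far_B {S : Set Oracle} (hS : ∀ f, CondB f → Null f S) {g : ℕ → ℝ} (hg : PolyB g) :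
    ∀ᵐ O ∂randomOracle, ∀ A, Close g O A → A ∉ S :=
  far_aux fun n₁ => hS _ (condB_gau hg n₁)

end Pool.Agent.TH707.EC
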