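import Pool.Agent.TH707.EC.LangE

/-!
# Small circuits for the test language: null sets
-/

set_option autoImplicit false

namespace Pool.Agent.TH707.EC

open Pool.Agent.NPC Pool.Agent.H620R2.Gauge Finset MeasureTheory Filter
open Pool.Agent.H622R2.Exp (InTime Lin Pol)
open Pool.Agent.H622R2.Ckt
open H568R2

/-- the oracles for which the test language has a small circuit at length `n` -/
def bad (B n : ℕ) : Set Oracle := {A | Small A (tst B A) (2 ^ (1 / (2 * B : ℝ) * n)) n}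

theorem ev_of_bad {B n N : ℕ} (hB : 1 ≤ B) (hn : 2 * B ≤ n) (hN : 2 ^ (n + 2 ^ (n / B) + 1) ≤ N)
    {A : Oracle} (hA : A ∈ bad B n) : Ev B n N (pre N A) := by
  obtain ⟨C, hC1, hC2⟩ := hA
  have h1 : (2 : ℝ) ^ (1 / (2 * B : ℝ) * n) ≤ 2 ^ (n / B) := by
    rw [← Real.rpow_natCast]
    apply Real.rpow_le_rpow_of_exponent_le (by norm_num)
    have h2 : n < B * (n / B + 1) := Nat.lt_mul_div_succ n (by omega)
    have h3 : (n : ℝ) < B * ((n / B : ℕ) + 1) := by exact_mod_cast h2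
    have hB0 : (0 : ℝ) < B := by exact_mod_cast hB
    have h4 : (2 : ℝ) * B ≤ n := by exact_mod_cast hn
    have h5 : 1 / (2 * B : ℝ) * n = n / (2 * B) := by ring
    rw [h5, div_le_iff₀ (by positivity)]
    nlinarith
  have hsize : C.size < 2 ^ (n / B) := by
    have := lt_of_lt_of_le hC1 h1
    exact_mod_cast this
  refine ⟨C, hsize.le, fun x hx => ?_⟩
  have hloc : ∀ y : List Bool, y.length ≤ n + 2 ^ (n / B) → orc N (pre N A) y = A y := by
    intro y hy
    apply orc_pre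
    have h2 := idx_lt y
    have h3 : 2 ^ (y.length + 1) ≤ 2 ^ (n + 2 ^ (n / B) + 1) :=
      Nat.pow_le_pow_right (by norm_num) (by omega)
    omega
  rw [hloc (x ++ pd B n) (by rw [List.length_append, pd, List.length_replicate, hx]),
    eval_local C (orc N (pre N A)) A (fun y hy => hloc y (by omega)) x, ← hC2 x hx]
  unfold tst
  rw [Set.mem_ofPred_eq, hx]

open Classical in
theorem cov_bad {B n N : ℕ} (hB : 1 ≤ B) (hn : 2 * B ≤ n) (hN : 2 ^ (n + 2 ^ (n / B) + 1) ≤ N)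
    {f : ℕ → ℝ} {δ : ℝ}
    (h : (nC n (2 ^ (n / B)) : ℝ) * (1 / 2) ^ (2 ^ n) * (2 : ℝ) ^ f N ≤ δ) :
    Cov f (bad B n) δ := by
  refine cover_of_event (Ev B n N) (bad B n) (fun A hA => ev_of_bad hB hn hN hA) f δ ?_
  exact (mul_le_mul_of_nonneg_right (ev_bound hN) (by positivity)).trans h

/-- the estimate -/
theorem asy (k : ℕ) : ∀ᶠ n : ℕ in atTop, 2 * (k + 3) ≤ n ∧
    ∀ F : ℝ, F ≤ ((n + 3 + 2 * 2 ^ (n / (k + 3)) : ℕ) : ℝ) ^ k →
      (nC n (2 ^ (n / (k + 3))) : ℝ) * (1 / 2) ^ (2 ^ n) * (2 : ℝ) ^ F ≤ (1 / 2) ^ n := by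
  have h1 := poly_le_two_pow_div (2 * Polynomial.X + Polynomial.C 12) (E := k + 3) (by omega)
  have h2 := (tendsto_div (E := k + 3) (by omega)).eventually (eventually_ge_atTop (k + 5))
  filter_upwards [h1, h2, eventually_ge_atTop (2 * (k + 3))] with n h3 h4 h5
  refine ⟨h5, fun F hF => ?_⟩
  simp only [Polynomial.eval_add, Polynomial.eval_mul, Polynomial.eval_C, Polynomial.eval_X,
    Polynomial.eval_ofNat] at h3
  have hjn : (k + 3) * (n / (k + 3)) ≤ n := Nat.mul_div_le n (k + 3)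
  set j := n / (k + 3) with hj
  set K := 2 ^ j with hK
  have hjK : j + 1 ≤ K := Nat.lt_two_pow_self
  -- the number of circuits
  have h6 : nC n K ≤ 2 ^ ((j + 1) * (4 * K + 4)) := by
    unfold nC
    rw [pow_mul]
    refine Nat.pow_le_pow_left ?_ _
    rw [pow_succ]
    omega
  have e1 : (j + 1) * (4 * K + 4) ≤ 2 ^ (2 * j + 3) := by
    have : 2 ^ (2 * j + 3) = 8 * (K * K) := by
      rw [hK, pow_add, two_mul, pow_add]
      ring
    rw [this]
    nlinarith
  have e2 : (n + 3 + 2 * K) ^ k ≤ 2 ^ ((j + 2) * k) := by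
    rw [pow_mul]
    refine Nat.pow_le_pow_left ?_ _
    rw [pow_add]
    omega
  have e3 : n ≤ 2 ^ (j + 1) := by
    rw [pow_succ]
    omega
  have e4 : 2 ^ (2 * j + 3) + 2 ^ ((j + 2) * k) + 2 ^ (j + 1) ≤ 2 ^ n := by
    have hm : 2 ≤ (k + 3) * j := by nlinarith
    obtain ⟨m, hm⟩ : ∃ m, (k + 3) * j = m + 2 := ⟨(k + 3) * j - 2, by omega⟩
    have g1 : 2 * j + 3 ≤ m := by nlinarith [Nat.zero_le (k * j)]
    have g2 : (j + 2) * k ≤ m := by nlinarith
    have g3 : j + 1 ≤ m := by omega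
    have g4 : 2 ^ (m + 2) ≤ 2 ^ n := Nat.pow_le_pow_right (by norm_num) (by omega)
    have g5 := Nat.pow_le_pow_right (show 0 < 2 by norm_num) g1
    have g6 := Nat.pow_le_pow_right (show 0 < 2 by norm_num) g2
    have g7 := Nat.pow_le_pow_right (show 0 < 2 by norm_num) g3
    have g8 : 2 ^ (m + 2) = 4 * 2 ^ m := by rw [pow_add]; ring
    omega
  have h7 : ((j + 1) * (4 * K + 4) + (n + 3 + 2 * K) ^ k + n : ℕ) ≤ 2 ^ n := by omega
  have h8 : (nC n K : ℝ) ≤ 2 ^ (((j + 1) * (4 * K + 4) : ℕ) : ℝ) := by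
    rw [Real.rpow_natCast]
    exact_mod_cast h6
  have h9 : (2 : ℝ) ^ F ≤ 2 ^ (((n + 3 + 2 * K) ^ k : ℕ) : ℝ) := by
    apply Real.rpow_le_rpow_of_exponent_le (by norm_num)
    push_cast at hF ⊢
    exact hF
  have h10 : ((1 : ℝ) / 2) ^ (2 ^ n) = 2 ^ (-((2 ^ n : ℕ) : ℝ)) := by
    rw [Real.rpow_neg (by norm_num), Real.rpow_natCast, one_div, inv_pow]
  have h11 : ((1 : ℝ) / 2) ^ n = 2 ^ (-(n : ℝ)) := by
    rw [Real.rpow_neg (by norm_num), Real.rpow_natCast, one_div, inv_pow]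
  rw [h10, h11]
  calc (nC n K : ℝ) * 2 ^ (-((2 ^ n : ℕ) : ℝ)) * 2 ^ F
      ≤ 2 ^ (((j + 1) * (4 * K + 4) : ℕ) : ℝ) * 2 ^ (-((2 ^ n : ℕ) : ℝ)) *
          2 ^ (((n + 3 + 2 * K) ^ k : ℕ) : ℝ) := by gcongr
    _ = 2 ^ ((((j + 1) * (4 * K + 4) : ℕ) : ℝ) + -((2 ^ n : ℕ) : ℝ) +
          (((n + 3 + 2 * K) ^ k : ℕ) : ℝ)) := by
        rw [← Real.rpow_add (by norm_num), ← Real.rpow_add (by norm_num)]
    _ ≤ 2 ^ (-(n : ℝ)) := by
        apply Real.rpow_le_rpow_of_exponent_le (by norm_num)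
        have h12 : ((((j + 1) * (4 * K + 4) + (n + 3 + 2 * K) ^ k + n : ℕ)) : ℝ) ≤
            ((2 ^ n : ℕ) : ℝ) := by exact_mod_cast h7
        push_cast at h12 ⊢
        linarith

/-- Q1 fails relative to `A`: no language in `E` requires exponential circuits for all large
input lengths. -/
def notHardAE : Set Oracle := {A | ¬ ∃ L, InTime Lin A L ∧ ∃ ε : ℝ, 0 < ε ∧
  ∀ᶠ n : ℕ in atTop, ¬ Small A L (2 ^ (ε * n)) n}

/-- no language in `E` requires exponential circuits for infinitely many input lengths -/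
def notHardIO : Set Oracle := {A | ¬ ∃ L, InTime Lin A L ∧ ∃ ε : ℝ, 0 < ε ∧
  ∃ᶠ n : ℕ in atTop, ¬ Small A L (2 ^ (ε * n)) n}

theorem mem_bad_io {A : Oracle} (hA : A ∈ notHardAE) {B : ℕ} (hB : 1 ≤ B) :
    ∃ᶠ n : ℕ in atTop, A ∈ bad B n := by
  unfold notHardAE at hA
  rw [Set.mem_ofPred_eq] at hA
  by_contra hc
  rw [not_frequently] at hc
  refine hA ⟨tst B A, tst_inTime B A, 1 / (2 * B : ℝ), ?_, hc⟩
  have : (0 : ℝ) < B := by exact_mod_cast hB
  positivity

theorem mem_bad_ev {A : Oracle} (hA : A ∈ notHardIO) {B : ℕ} (hB : 1 ≤ B) :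
    ∀ᶠ n : ℕ in atTop, A ∈ bad B n := by
  unfold notHardIO at hA
  rw [Set.mem_ofPred_eq] at hA
  by_contra hc
  rw [not_eventually] at hc
  refine hA ⟨tst B A, tst_inTime B A, 1 / (2 * B : ℝ), ?_, hc⟩
  have : (0 : ℝ) < B := by exact_mod_cast hB
  positivity

theorem nullA {f : ℕ → ℝ} (hf : CondA f) : Null f notHardAE := by
  obtain ⟨k, hk⟩ := hf
  refine null_of_io (P := bad (k + 3)) (fun A hA => mem_bad_io hA (by omega)) ?_
  have h1 : Tendsto (fun n : ℕ => n + 2 ^ (n / (k + 3)) + 1) atTop atTop :=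
    tendsto_atTop_mono (fun n => by
      have := Nat.zero_le (2 ^ (n / (k + 3)))
      simp only [id]
      omega) tendsto_id
  filter_upwards [asy k, h1.eventually hk] with n h2 h3
  obtain ⟨N, hN, hfN⟩ := h3
  refine cov_bad (by omega) h2.1 hN (h2.2 (f N) (hfN.trans ?_))
  refine pow_le_pow_left₀ (Nat.cast_nonneg _) ?_ k
  have : n + 2 ^ (n / (k + 3)) + 1 ≤ n + 3 + 2 * 2 ^ (n / (k + 3)) := by omega
  exact_mod_cast this

theorem nullB {f : ℕ → ℝ} (hf : CondB f) : Null f notHardIO := by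
  obtain ⟨k, hk⟩ := hf
  refine null_of_ev (P := bad (k + 3)) (fun A hA => mem_bad_ev hA (by omega)) ?_
  intro δ hδ n₀
  obtain ⟨n₁, hn₁⟩ := eventually_atTop.1 (asy k)
  obtain ⟨n₂, hn₂⟩ := exists_pow_lt_of_lt_one hδ (show (1 / 2 : ℝ) < 1 by norm_num)
  set m := max n₀ (max n₁ n₂) with hm
  set s : ℕ → ℕ := fun n => n + 2 ^ (n / (k + 3)) + 1 with hs
  have hsm : ∀ n, n + 1 ≤ s n := by
    intro n
    have := Nat.zero_le (2 ^ (n / (k + 3)))
    rw [hs]
    dsimp only
    omega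
  obtain ⟨N, hfN, hN⟩ := (hk.and_eventually (eventually_ge_atTop (2 ^ s m))).exists
  set l := Nat.log 2 N with hl
  have hml : s m ≤ l := Nat.le_log_of_pow_le (by norm_num) hN
  have hN0 : N ≠ 0 := by
    have : 0 < 2 ^ s m := by positivity
    omega
  set n := Nat.findGreatest (fun n => s n ≤ l) l with hn
  have hmn : m ≤ n := Nat.le_findGreatest (by
    have := hsm m
    omega) hml
  have hns : s n ≤ l := Nat.findGreatest_spec (P := fun n => s n ≤ l) (m := m) (by
    have := hsm m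
    omega) hml
  have hmax : l < s (n + 1) := by
    by_contra hc
    have h1 : n + 1 ≤ l := by
      have := hsm (n + 1)
      omega
    have := Nat.le_findGreatest (P := fun n => s n ≤ l) h1 (not_lt.1 hc)
    omega
  have h2 := hn₁ n (((le_max_left _ _).trans (le_max_right _ _)).trans hmn)
  refine ⟨n, (le_max_left _ _).trans hmn, ?_⟩
  have hNs : 2 ^ s n ≤ N :=
    (Nat.pow_le_pow_right (by norm_num) hns).trans (Nat.pow_log_le_self 2 hN0)
  refine cov_bad (by omega) h2.1 hNs ((h2.2 (f N) (hfN.trans ?_)).trans ?_)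
  · refine pow_le_pow_left₀ (Real.logb_nonneg (by norm_num) ?_) ?_ k
    · have : 1 ≤ N := by omega
      exact_mod_cast this
    · have h3 : Real.logb 2 N ≤ (l : ℝ) + 1 := by
        have h4 : (N : ℝ) ≤ 2 ^ (l + 1) := by
          have := (Nat.lt_pow_succ_log_self (b := 2) (by norm_num) N).le
          exact_mod_cast this
        refine (Real.logb_le_logb_of_le (by norm_num) (by
          have : 0 < N := by omega
          exact_mod_cast this) h4).trans (le_of_eq ?_)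
        rw [Real.logb_pow, Real.logb_self_eq_one (by norm_num), mul_one]
        push_cast
        rfl
      have h5 : s (n + 1) ≤ n + 2 + 2 * 2 ^ (n / (k + 3)) := by
        rw [hs]
        dsimp only
        have h6 : (n + 1) / (k + 3) ≤ n / (k + 3) + 1 := by
          have h7 : n + 1 ≤ n + (k + 3) := by omega
          have h8 := Nat.div_le_div_right (c := k + 3) h7
          rwa [Nat.add_div_right _ (by omega)] at h8
        have h9 := Nat.pow_le_pow_right (show 0 < 2 by norm_num) h6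
        rw [pow_succ] at h9
        omega
      have h6 : l + 1 ≤ n + 3 + 2 * 2 ^ (n / (k + 3)) := by omega
      refine h3.trans ?_
      exact_mod_cast h6
  · refine le_trans ?_ hn₂.le
    exact pow_le_pow_of_le_one (by norm_num) (by norm_num)
      (((le_max_right _ _).trans (le_max_right _ _)).trans hmn)

end Pool.Agent.TH707.EC
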