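import Pool.Agent.TH707.EC.LangG

/-!
# The oracle generator: null sets
-/

set_option autoImplicit false

namespace Pool.Agent.TH707.EC

open Pool.Agent.NPC Pool.Agent.H620R2.Gauge Finset MeasureTheory Filter
open Pool.Agent.H622R2.Ckt
open H568R2

/-- the seed length -/
def dl (c m : ℕ) : ℕ := c * (Nat.bits m).length

/-- the oracles for which the generator fails at the output length `m` -/
def badG (c m : ℕ) : Set Oracle := {A | ¬ Fools A (dl c m) m (gen A m)}

theorem frac_congr {n : ℕ} {p q : List Bool → Prop} (h : ∀ x, x.length = n → (p x ↔ q x)) :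
    frac n p = frac n q := by
  unfold frac
  congr 3
  ext x
  constructor
  · rintro ⟨h1, h2⟩
    exact ⟨h1, (h x h1).1 h2⟩
  · rintro ⟨h1, h2⟩
    exact ⟨h1, (h x h1).2 h2⟩

theorem ev_of_badG {c m N : ℕ} (hN : 2 ^ (dl c m + 2 * m + 1) ≤ N) {A : Oracle}
    (hA : A ∈ badG c m) : EvG (dl c m) m N (pre N A) := by
  unfold badG Fools at hA
  rw [Set.mem_ofPred_eq] at hA
  have h1 : ∃ C : Circuit, C.size ≤ m ∧ 1 / 8 <
      |frac (dl c m) (fun s => C.eval A (gen A m s) = true) -
        frac m (fun x => C.eval A x = true)| := by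
    by_contra hc
    push Not at hc
    exact hA ⟨fun s _ => length_gen A m s, hc⟩
  obtain ⟨C, hC, h2⟩ := h1
  have hloc : ∀ y : List Bool, y.length ≤ dl c m + 2 * m → orc N (pre N A) y = A y := by
    intro y hy
    apply orc_pre
    have h3 := idx_lt y
    have h4 : 2 ^ (y.length + 1) ≤ 2 ^ (dl c m + 2 * m + 1) :=
      Nat.pow_le_pow_right (by norm_num) (by omega)
    omega
  have hev : ∀ x, C.eval (orc N (pre N A)) x = C.eval A x := fun x =>
    eval_local C _ _ (fun y hy => hloc y (by omega)) x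
  have hgen : ∀ s : List Bool, s.length = dl c m → gen (orc N (pre N A)) m s = gen A m s := by
    intro s hs
    unfold gen
    apply List.map_congr_left
    intro j hj
    rw [List.mem_range] at hj
    exact hloc _ (by rw [length_qu hj, hs])
  refine ⟨C, hC, ?_⟩
  unfold EvK
  rw [frac_congr (n := dl c m) (q := fun s => C.eval A (gen A m s) = true)
    (fun s hs => by rw [hgen s hs, hev]),
    frac_congr (n := m) (q := fun x => C.eval A x = true) (fun x _ => by rw [hev])]
  exact h2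

open Classical in
theorem cov_badG {c m N : ℕ} (hN : 2 ^ (dl c m + 2 * m + 1) ≤ N)
    {f : ℕ → ℝ} {δ : ℝ}
    (h : (nC m m : ℝ) * (2 * Real.exp (-(2 ^ dl c m : ℝ) / 256)) * (2 : ℝ) ^ f N ≤ δ) :
    Cov f (badG c m) δ := by
  refine cover_of_event (EvG (dl c m) m N) (badG c m) (fun A hA => ev_of_badG hN hA) f δ ?_
  exact (mul_le_mul_of_nonneg_right (evG_bound hN) (by positivity)).trans h

theorem exp_neg_le {t : ℝ} (ht : 0 ≤ t) : Real.exp (-t) ≤ 2 ^ (-t) := by
  have h1 : (2 : ℝ) ^ (-t) = Real.exp (Real.log 2 * (-t)) := by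
    rw [Real.rpow_def_of_pos (by norm_num)]
  rw [h1]
  apply Real.exp_le_exp.2
  have h2 : Real.log 2 ≤ 1 := by
    have := Real.log_two_lt_d9
    linarith
  have h3 : 0 ≤ Real.log 2 := Real.log_nonneg (by norm_num)
  nlinarith

theorem pow_bits (m : ℕ) : m ≤ 2 ^ (Nat.bits m).length := by
  rw [Nat.size_eq_bits_len]
  exact (Nat.lt_size_self m).le

/-- the seed length is small -/
theorem dl_le (c : ℕ) : ∀ᶠ m : ℕ in atTop, dl c m + c + 3 ≤ m := by
  have h1 := (poly_le_two_pow (Polynomial.C (2 * (c + 1)) * Polynomial.X + Polynomial.C (2 * c + 6)))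
  have h2 : Tendsto (fun m : ℕ => Nat.log 2 m) atTop atTop :=
    tendsto_atTop.2 fun b => by
      filter_upwards [eventually_ge_atTop (2 ^ b)] with m hm
      exact Nat.le_log_of_pow_le (by norm_num) hm
  filter_upwards [h2.eventually h1, eventually_ge_atTop 1] with m h3 h4
  simp only [Polynomial.eval_add, Polynomial.eval_mul, Polynomial.eval_C, Polynomial.eval_X] at h3
  have h5 : (Nat.bits m).length ≤ Nat.log 2 m + 1 := by
    rw [Nat.size_eq_bits_len]
    exact Nat.size_le.2 (Nat.lt_pow_succ_log_self (by norm_num) m)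
  have h6 : 2 ^ Nat.log 2 m ≤ m := Nat.pow_log_le_self 2 (by omega)
  unfold dl
  have h7 := Nat.mul_le_mul_left c h5
  nlinarith

theorem asyG (k : ℕ) : ∀ᶠ m : ℕ in atTop,
    ∀ F : ℝ, F ≤ ((8 * m : ℕ) : ℝ) ^ k →
      (nC m m : ℝ) * (2 * Real.exp (-(2 ^ dl (k + 4) m : ℝ) / 256)) * (2 : ℝ) ^ F ≤
        (1 / 2) ^ m := by
  have h1 := poly_le_two_pow (2 * Polynomial.X + Polynomial.C 8)
  filter_upwards [h1, eventually_ge_atTop (256 * (10 + 8 ^ k))] with m h2 h3 F hF
  simp only [Polynomial.eval_add, Polynomial.eval_mul, Polynomial.eval_C, Polynomial.eval_X,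
    Polynomial.eval_ofNat] at h2
  have hm1 : 1 ≤ m := by
    have : 1 ≤ 8 ^ k := Nat.one_le_pow _ _ (by norm_num)
    omega
  set D := 2 ^ dl (k + 4) m with hD
  have hDm : m ^ (k + 4) ≤ D := by
    rw [hD, dl, mul_comm, pow_mul]
    exact Nat.pow_le_pow_left (pow_bits m) _
  have h4 : 256 * (m * (4 * m + 4) + 1 + (8 * m) ^ k + m) ≤ D := by
    refine le_trans ?_ hDm
    have e1 : m * (4 * m + 4) + 1 + m ≤ 10 * m ^ 2 := by nlinarith
    have e2 : m ^ 2 ≤ m ^ (k + 2) := Nat.pow_le_pow_right hm1 (by omega)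
    have e3 : (8 * m) ^ k ≤ 8 ^ k * m ^ (k + 2) := by
      rw [mul_pow]
      exact Nat.mul_le_mul_left _ (Nat.pow_le_pow_right hm1 (by omega))
    have e4 : m ^ (k + 4) = m ^ (k + 2) * (m * m) := by ring
    have e5 : 256 * (m * (4 * m + 4) + 1 + (8 * m) ^ k + m) ≤
        256 * (10 + 8 ^ k) * m ^ (k + 2) := by nlinarith
    refine e5.trans ?_
    rw [e4, mul_comm]
    refine Nat.mul_le_mul_left _ (h3.trans ?_)
    nlinarith
  have h5 : nC m m ≤ 2 ^ (m * (4 * m + 4)) := by
    unfold nC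
    rw [pow_mul]
    exact Nat.pow_le_pow_left (by omega) _
  have h6 : (nC m m : ℝ) ≤ 2 ^ (((m * (4 * m + 4) : ℕ)) : ℝ) := by
    rw [Real.rpow_natCast]
    exact_mod_cast h5
  have h7 : Real.exp (-(2 ^ dl (k + 4) m : ℝ) / 256) ≤ 2 ^ (-((D : ℕ) : ℝ) / 256) := by
    have h8 := exp_neg_le (t := ((D : ℕ) : ℝ) / 256) (by positivity)
    have h9 : (2 ^ dl (k + 4) m : ℝ) = ((D : ℕ) : ℝ) := by
      rw [hD]
      push_cast
      rfl
    rw [h9, neg_div]
    exact h8
  have h8 : ((1 : ℝ) / 2) ^ m = 2 ^ (-(m : ℝ)) := by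
    rw [Real.rpow_neg (by norm_num), Real.rpow_natCast, one_div, inv_pow]
  have h9 : (2 : ℝ) ^ F ≤ 2 ^ ((((8 * m) ^ k : ℕ)) : ℝ) := by
    apply Real.rpow_le_rpow_of_exponent_le (by norm_num)
    push_cast at hF ⊢
    exact hF
  rw [h8]
  calc (nC m m : ℝ) * (2 * Real.exp (-(2 ^ dl (k + 4) m : ℝ) / 256)) * (2 : ℝ) ^ F
      ≤ 2 ^ (((m * (4 * m + 4) : ℕ)) : ℝ) * (2 ^ (1 : ℝ) * 2 ^ (-((D : ℕ) : ℝ) / 256)) *
          2 ^ ((((8 * m) ^ k : ℕ)) : ℝ) := by
        rw [Real.rpow_one]
        gcongr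
    _ = 2 ^ ((((m * (4 * m + 4) : ℕ)) : ℝ) + (1 + (-((D : ℕ) : ℝ) / 256)) +
          (((8 * m) ^ k : ℕ) : ℝ)) := by
        rw [← Real.rpow_add (by norm_num), ← Real.rpow_add (by norm_num),
          ← Real.rpow_add (by norm_num)]
    _ ≤ 2 ^ (-(m : ℝ)) := by
        apply Real.rpow_le_rpow_of_exponent_le (by norm_num)
        have h10 : ((256 * (m * (4 * m + 4) + 1 + (8 * m) ^ k + m) : ℕ) : ℝ) ≤ ((D : ℕ) : ℝ) := by
          exact_mod_cast h4
        push_cast at h10 ⊢
        linarith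

/-- the oracles without logarithmic-seed generators -/
def noGenAE : Set Oracle := {A | ¬ HasGenerator A}

/-- the oracles without logarithmic-seed generators for infinitely many output lengths -/
def noGenIO : Set Oracle := {A | ¬ HasGeneratorIO A}

theorem goodAt_of_fools {A : Oracle} {c m : ℕ} (hm : dl c m < m) (hm2 : 2 ≤ m)
    (h : Fools A (dl c m) m (gen A m)) :
    GoodAt A (LangG.gD c) (fun x => (LangG.gQ x).map A) (2 * c) m := by
  have h1 : (LangG.gD c (ones m)).length = dl c m := by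
    unfold LangG.gD dl ones
    rw [List.length_replicate, List.length_replicate]
  refine ⟨?_, by rw [h1]; exact hm, ?_⟩
  · rw [h1]
    unfold dl
    have h2 : (Nat.bits m).length ≤ Nat.log 2 m + 1 := by
      rw [Nat.size_eq_bits_len]
      exact Nat.size_le.2 (Nat.lt_pow_succ_log_self (by norm_num) m)
    have h3 : 1 ≤ Nat.log 2 m := Nat.le_log_of_pow_le (by norm_num) (by omega)
    have h4 : (Nat.bits m).length ≤ 2 * Nat.log 2 m := by omega
    have h5 : ((Nat.log 2 m : ℕ) : ℝ) ≤ Real.logb 2 m := Real.natLog_le_logb m 2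
    have h6 : (((Nat.bits m).length : ℕ) : ℝ) ≤ 2 * ((Nat.log 2 m : ℕ) : ℝ) := by
      exact_mod_cast h4
    push_cast
    have h7 : (0 : ℝ) ≤ c := Nat.cast_nonneg _
    nlinarith
  · rw [h1]
    have h2 : (fun s => (fun x => (LangG.gQ x).map A) (pairBits (ones m) s)) = gen A m := by
      funext s
      exact LangG.gG_eq A m s
    rw [h2]
    exact h

theorem mem_badG_io {A : Oracle} (hA : A ∈ noGenAE) (c : ℕ) : ∃ᶠ m : ℕ in atTop, A ∈ badG c m := by
  unfold noGenAE at hA
  rw [Set.mem_ofPred_eq] at hA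
  by_contra hc
  rw [not_frequently] at hc
  refine hA ⟨_, _, LangG.isFP_gD A c, LangG.isFP_gG A, 2 * c, ?_⟩
  filter_upwards [hc, dl_le c, eventually_ge_atTop 2] with m h1 h2 h3
  refine goodAt_of_fools (by omega) h3 ?_
  by_contra h4
  exact h1 h4

theorem mem_badG_ev {A : Oracle} (hA : A ∈ noGenIO) (c : ℕ) : ∀ᶠ m : ℕ in atTop, A ∈ badG c m := by
  unfold noGenIO at hA
  rw [Set.mem_ofPred_eq] at hA
  by_contra hc
  rw [not_eventually] at hc
  refine hA ⟨_, _, LangG.isFP_gD A c, LangG.isFP_gG A, 2 * c, ?_⟩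
  refine (hc.and_eventually ((dl_le c).and (eventually_ge_atTop 2))).mono ?_
  rintro m ⟨h1, h2, h3⟩
  refine goodAt_of_fools (by omega) h3 ?_
  by_contra h4
  exact h1 h4

theorem nullGA {f : ℕ → ℝ} (hf : CondA f) : Null f noGenAE := by
  obtain ⟨k, hk⟩ := hf
  refine null_of_io (P := badG (k + 4)) (fun A hA => mem_badG_io hA _) ?_
  have h1 : Tendsto (fun m : ℕ => dl (k + 4) m + 2 * m + 1) atTop atTop :=
    tendsto_atTop_mono (fun n => by simp only [id]; omega) tendsto_id
  filter_upwards [asyG k, h1.eventually hk, dl_le (k + 4)] with m h2 h3 h4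
  obtain ⟨N, hN, hfN⟩ := h3
  refine cov_badG hN (h2 (f N) (hfN.trans ?_))
  refine pow_le_pow_left₀ (Nat.cast_nonneg _) ?_ k
  have : dl (k + 4) m + 2 * m + 1 ≤ 8 * m := by omega
  exact_mod_cast this

/-- the choice of the scale -/
theorem exists_scale (s : ℕ → ℕ) (hs : ∀ n, n + 1 ≤ s n) {m l : ℕ} (h : s m ≤ l) :
    ∃ n, m ≤ n ∧ s n ≤ l ∧ l < s (n + 1) := by
  have h1 := hs m
  refine ⟨Nat.findGreatest (fun n => s n ≤ l) l, Nat.le_findGreatest (by omega) h,
    Nat.findGreatest_spec (P := fun n => s n ≤ l) (m := m) (by omega) h, ?_⟩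
  by_contra hc
  have h2 := hs (Nat.findGreatest (fun n => s n ≤ l) l + 1)
  have := Nat.le_findGreatest (P := fun n => s n ≤ l)
    (m := Nat.findGreatest (fun n => s n ≤ l) l + 1) (n := l) (by omega) (not_lt.1 hc)
  omega

theorem nullGB {f : ℕ → ℝ} (hf : CondB f) : Null f noGenIO := by
  obtain ⟨k, hk⟩ := hf
  refine null_of_ev (P := badG (k + 4)) (fun A hA => mem_badG_ev hA _) ?_
  intro δ hδ n₀
  obtain ⟨n₁, hn₁⟩ := eventually_atTop.1 ((asyG k).and (dl_le (k + 4)))
  obtain ⟨n₂, hn₂⟩ := exists_pow_lt_of_lt_one hδ (show (1 / 2 : ℝ) < 1 by norm_num)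
  set m₀ := max n₀ (max n₁ n₂) with hm₀
  set s : ℕ → ℕ := fun m => dl (k + 4) m + 2 * m + 1 with hs
  have hsm : ∀ n, n + 1 ≤ s n := by
    intro n
    rw [hs]
    dsimp only
    omega
  obtain ⟨N, hfN, hN⟩ := (hk.and_eventually (eventually_ge_atTop (2 ^ s m₀))).exists
  set l := Nat.log 2 N with hl
  have hml : s m₀ ≤ l := Nat.le_log_of_pow_le (by norm_num) hN
  have hN0 : N ≠ 0 := by
    have : 0 < 2 ^ s m₀ := by positivity
    omega
  obtain ⟨m, hmn, hns, hmax⟩ := exists_scale s hsm hml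
  obtain ⟨h2, h3⟩ := hn₁ m (((le_max_left _ _).trans (le_max_right _ _)).trans hmn)
  refine ⟨m, (le_max_left _ _).trans hmn, ?_⟩
  have hNs : 2 ^ s m ≤ N :=
    (Nat.pow_le_pow_right (by norm_num) hns).trans (Nat.pow_log_le_self 2 hN0)
  refine cov_badG hNs ((h2 (f N) (hfN.trans ?_)).trans ?_)
  · refine pow_le_pow_left₀ (Real.logb_nonneg (by norm_num) ?_) ?_ k
    · have : 1 ≤ N := by omega
      exact_mod_cast this
    · have h4 : Real.logb 2 N ≤ (l : ℝ) + 1 := by
        have h5 : (N : ℝ) ≤ 2 ^ (l + 1) := by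
          have := (Nat.lt_pow_succ_log_self (b := 2) (by norm_num) N).le
          exact_mod_cast this
        refine (Real.logb_le_logb_of_le (by norm_num) (by
          have : 0 < N := by omega
          exact_mod_cast this) h5).trans (le_of_eq ?_)
        rw [Real.logb_pow, Real.logb_self_eq_one (by norm_num), mul_one]
        push_cast
        rfl
      have h5 : dl (k + 4) (m + 1) ≤ dl (k + 4) m + (k + 4) := by
        unfold dl
        have h6 : (Nat.bits (m + 1)).length ≤ (Nat.bits m).length + 1 := by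
          rw [Nat.size_eq_bits_len, Nat.size_eq_bits_len, Nat.size_le]
          have := Nat.lt_size_self m
          rw [pow_succ]
          omega
        have := Nat.mul_le_mul_left (k + 4) h6
        rw [mul_add, mul_one] at this
        exact this
      have h6 : s (m + 1) = dl (k + 4) (m + 1) + 2 * (m + 1) + 1 := rfl
      have h7 : l + 1 ≤ 8 * m := by omega
      refine h4.trans ?_
      exact_mod_cast h7
  · refine le_trans ?_ hn₂.le
    exact pow_le_pow_of_le_one (by norm_num) (by norm_num)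
      (((le_max_right _ _).trans (le_max_right _ _)).trans hmn)

end Pool.Agent.TH707.EC
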