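import Mathlib

/-!
# Counting functions with too many or too few values in a set
-/

set_option autoImplicit false

namespace Pool.Agent.TH707.EC

open Finset

theorem exp_le_quad {z : ℝ} (h : |z| ≤ 1) : Real.exp z ≤ 1 + z + z ^ 2 := by
  have h1 := Real.abs_exp_sub_one_sub_id_le h
  have h2 := (abs_le.1 h1).2
  linarith

/-- the moment of one coordinate -/
theorem moment {V : Type*} [Fintype V] [DecidableEq V] [Nonempty V] (T : Finset V) {lam : ℝ}
    (hl : |lam| ≤ 1) :
    ∑ v : V, Real.exp (lam * ((if v ∈ T then (1 : ℝ) else 0) - T.card / Fintype.card V)) ≤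
      Fintype.card V * Real.exp (lam ^ 2) := by
  set n : ℝ := ((Fintype.card V : ℕ) : ℝ) with hn
  set p : ℝ := T.card / n with hp
  have hn0 : 0 < n := by
    rw [hn]
    exact_mod_cast Fintype.card_pos
  have hp0 : 0 ≤ p := by positivity
  have hp1 : p ≤ 1 := by
    rw [hp, div_le_one hn0, hn]
    exact_mod_cast card_le_univ T
  have h1 : ∀ v : V, Real.exp (lam * ((if v ∈ T then (1 : ℝ) else 0) - p)) ≤
      1 + lam * ((if v ∈ T then (1 : ℝ) else 0) - p) + lam ^ 2 := by
    intro v
    have h2 : |(if v ∈ T then (1 : ℝ) else 0) - p| ≤ 1 := by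
      split_ifs
      · rw [abs_le]
        constructor <;> linarith
      · rw [abs_le]
        constructor <;> linarith
    have h3 : |lam * ((if v ∈ T then (1 : ℝ) else 0) - p)| ≤ 1 := by
      rw [abs_mul]
      exact mul_le_one₀ hl (abs_nonneg _) h2
    refine (exp_le_quad h3).trans ?_
    rw [mul_pow]
    have h4 : ((if v ∈ T then (1 : ℝ) else 0) - p) ^ 2 ≤ 1 := by
      rw [← sq_abs]
      exact pow_le_one₀ (abs_nonneg _) h2
    nlinarith [sq_nonneg lam]
  have h2 : ∑ v : V, ((if v ∈ T then (1 : ℝ) else 0) - p) = 0 := by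
    rw [sum_sub_distrib, sum_const, card_univ, nsmul_eq_mul, sum_boole, ← hn, hp]
    have : (univ.filter fun v => v ∈ T) = T := by ext; simp
    rw [this]
    field_simp
    ring
  calc ∑ v : V, Real.exp (lam * ((if v ∈ T then (1 : ℝ) else 0) - p))
      ≤ ∑ v : V, (1 + lam * ((if v ∈ T then (1 : ℝ) else 0) - p) + lam ^ 2) :=
        sum_le_sum fun v _ => h1 v
    _ = n * (1 + lam ^ 2) := by
        rw [sum_add_distrib, sum_add_distrib, ← mul_sum, h2, sum_const, sum_const, card_univ,
          nsmul_eq_mul, nsmul_eq_mul, ← hn]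
        ring
    _ ≤ n * Real.exp (lam ^ 2) := by
        refine mul_le_mul_of_nonneg_left ?_ hn0.le
        have := Real.add_one_le_exp (lam ^ 2)
        linarith

/-- the exponential moment of the number of values in `T` -/
theorem moment_prod {S V : Type*} [Fintype S] [Fintype V] [DecidableEq S] [DecidableEq V]
    [Nonempty V] (T : Finset V) {lam : ℝ} (hl : |lam| ≤ 1) :
    ∑ φ : S → V, Real.exp (lam * (((univ.filter fun s => φ s ∈ T).card : ℝ) -
      T.card / Fintype.card V * Fintype.card S)) ≤
      (Fintype.card V : ℝ) ^ Fintype.card S * Real.exp (lam ^ 2 * Fintype.card S) := by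
  have h1 : ∀ φ : S → V, Real.exp (lam * (((univ.filter fun s => φ s ∈ T).card : ℝ) -
      T.card / Fintype.card V * Fintype.card S)) =
      ∏ s : S, Real.exp (lam * ((if φ s ∈ T then (1 : ℝ) else 0) -
        T.card / Fintype.card V)) := by
    intro φ
    rw [← Real.exp_sum]
    congr 1
    rw [← mul_sum, sum_sub_distrib, sum_const, card_univ, nsmul_eq_mul, sum_boole]
    ring
  simp only [h1]
  rw [← Fintype.prod_sum (fun (_ : S) (v : V) =>
    Real.exp (lam * ((if v ∈ T then (1 : ℝ) else 0) - T.card / Fintype.card V)))]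
  rw [prod_const, card_univ]
  calc (∑ v : V, Real.exp (lam * ((if v ∈ T then (1 : ℝ) else 0) -
        T.card / Fintype.card V))) ^ Fintype.card S
      ≤ (Fintype.card V * Real.exp (lam ^ 2)) ^ Fintype.card S :=
        pow_le_pow_left₀ (sum_nonneg fun _ _ => (Real.exp_pos _).le) (moment T hl) _
    _ = _ := by
        rw [mul_pow, ← Real.exp_nat_mul]
        congr 2
        ring

/-- few functions have a deviation of more than one eighth -/
theorem card_dev {S V : Type*} [Fintype S] [Fintype V] [DecidableEq S] [DecidableEq V]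
    [Nonempty V] (T : Finset V) :
    ((univ.filter fun φ : S → V => (Fintype.card S : ℝ) / 8 <
      |((univ.filter fun s => φ s ∈ T).card : ℝ) -
        T.card / Fintype.card V * Fintype.card S|).card : ℝ) ≤
      2 * ((Fintype.card V : ℝ) ^ Fintype.card S * Real.exp (-(Fintype.card S : ℝ) / 256)) := by
  set D : ℝ := ((Fintype.card S : ℕ) : ℝ) with hD
  set X : (S → V) → ℝ := fun φ => ((univ.filter fun s => φ s ∈ T).card : ℝ) -
    T.card / Fintype.card V * D with hX
  have hD0 : 0 ≤ D := Nat.cast_nonneg _
  have key : ∀ lam : ℝ, |lam| = 1 / 16 →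
      ∑ φ : S → V, Real.exp (lam * X φ - D / 128) ≤
        (Fintype.card V : ℝ) ^ Fintype.card S * Real.exp (-D / 256) := by
    intro lam hl
    have h1 : lam ^ 2 = 1 / 256 := by
      rw [← sq_abs, hl]
      norm_num
    have h2 := moment_prod (S := S) T (lam := lam) (by rw [hl]; norm_num)
    have h3 : ∀ φ : S → V, Real.exp (lam * X φ - D / 128) =
        Real.exp (-(D / 128)) * Real.exp (lam * X φ) := by
      intro φ
      rw [← Real.exp_add]
      congr 1
      ring
    simp only [h3]
    rw [← mul_sum]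
    calc Real.exp (-(D / 128)) * ∑ φ : S → V, Real.exp (lam * X φ)
        ≤ Real.exp (-(D / 128)) * ((Fintype.card V : ℝ) ^ Fintype.card S *
            Real.exp (lam ^ 2 * D)) := mul_le_mul_of_nonneg_left h2 (Real.exp_pos _).le
      _ = (Fintype.card V : ℝ) ^ Fintype.card S * Real.exp (-D / 256) := by
          rw [h1, mul_left_comm, ← Real.exp_add]
          congr 2
          ring
  have h4 : ((univ.filter fun φ : S → V => D / 8 < |X φ|).card : ℝ) ≤
      ∑ φ : S → V, (Real.exp (1 / 16 * X φ - D / 128) + Real.exp (-(1 / 16) * X φ - D / 128)) := by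
    rw [← sum_boole]
    refine sum_le_sum fun φ _ => ?_
    split_ifs with h
    · rcases lt_abs.1 h with h5 | h5
      · have h6 : (1 : ℝ) ≤ Real.exp (1 / 16 * X φ - D / 128) :=
          Real.one_le_exp (by linarith)
        linarith [Real.exp_pos (-(1 / 16) * X φ - D / 128)]
      · have h6 : (1 : ℝ) ≤ Real.exp (-(1 / 16) * X φ - D / 128) :=
          Real.one_le_exp (by linarith)
        linarith [Real.exp_pos (1 / 16 * X φ - D / 128)]
    · positivity
  refine h4.trans ?_
  rw [sum_add_distrib]
  have h5 := key (1 / 16) (by rw [abs_of_pos] <;> norm_num)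
  have h6 := key (-(1 / 16)) (by rw [abs_neg, abs_of_pos] <;> norm_num)
  linarith

end Pool.Agent.TH707.EC
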