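import Pool.Agent.H622R2.Ckt.Defs

/-!
# Logarithmic-seed generators relative to an oracle

(Continues `Pool.Agent.H620R2.Gauge.Defs` and `Pool.Agent.H622R2.Ckt.Defs`.)
-/

set_option autoImplicit false

namespace Pool.Agent.TH707.EC

open Pool.Agent.NPC Pool.Agent.H620R2.Gauge Pool.Agent.H622R2.Ckt

/-- The fraction of the strings with property `p` among the strings of length `n`. -/
noncomputable def frac (n : ℕ) (p : List Bool → Prop) : ℝ :=
  (Set.ncard {x : List Bool | x.length = n ∧ p x} : ℝ) / 2 ^ n

/-- The map `G` takes the seeds of length `d` to strings of length `m`, and every circuit of size at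
most `m` with gates for the oracle `A` has distinguishing advantage at most `1/8` against it. -/
def Fools (A : Oracle) (d m : ℕ) (G : List Bool → List Bool) : Prop :=
  (∀ s : List Bool, s.length = d → (G s).length = m) ∧
  ∀ C : Circuit, C.size ≤ m →
    |frac d (fun s => C.eval A (G s) = true) - frac m (fun x => C.eval A x = true)| ≤ 1 / 8

/-- The string `1 ^ m`. -/
def ones (m : ℕ) : List Bool := List.replicate m true

/-- The conditions on a logarithmic-seed generator for the output length `m`: the seed length is the
length of `D (1 ^ m)`, it is at most `c log m` and less than `m`, and `s ↦ G ⟨1 ^ m, s⟩` fools the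
circuits of size `m` with gates for `A`. -/
def GoodAt (A : Oracle) (D G : List Bool → List Bool) (c : ℝ) (m : ℕ) : Prop :=
  ((D (ones m)).length : ℝ) ≤ c * Real.logb 2 m ∧ (D (ones m)).length < m ∧
    Fools A (D (ones m)).length m (fun s => G (pairBits (ones m) s))

/-- There is a logarithmic-seed generator against circuits relative to `A`: functions `D` and `G`
which are computable in polynomial time relative to `A`, such that the conditions hold for some
constant `c` and all sufficiently large `m`. -/
def HasGenerator (A : Oracle) : Prop :=
  ∃ D G : List Bool → List Bool, IsFP A D ∧ IsFP A G ∧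
    ∃ c : ℝ, ∀ᶠ m : ℕ in Filter.atTop, GoodAt A D G c m

/-- The same for infinitely many output lengths. -/
def HasGeneratorIO (A : Oracle) : Prop :=
  ∃ D G : List Bool → List Bool, IsFP A D ∧ IsFP A G ∧
    ∃ c : ℝ, ∃ᶠ m : ℕ in Filter.atTop, GoodAt A D G c m

end Pool.Agent.TH707.EC
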