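import Pool.Agent.TH707.EC.FamE
import Pool.Agent.H622R2.Ckt.CIR
import Pool.Agent.H620R2.GaugeX.NonNullX

/-!
# Oracles relative to which exponential time has small circuits
-/

set_option autoImplicit false

namespace Pool.Agent.TH707.EC

open Pool.Agent.NPC Pool.Agent.H620R2.Gauge Finset MeasureTheory Filter
open Pool.Agent.H622R2.Exp (InTime Lin Pol)
open Pool.Agent.H622R2.Ckt

/-- the infinitely often easy oracles -/
def easyIO : Set Oracle := {A | ∀ L, InTime Pol A L → ∀ ε : ℝ, 0 < ε →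
  ∃ᶠ n : ℕ in atTop, Small A L (2 ^ (ε * n)) n}

/-- the easy oracles -/
def easyAE : Set Oracle := {A | ∀ L, InTime Pol A L → ∀ ε : ℝ, 0 < ε →
  ∀ᶠ n : ℕ in atTop, Small A L (2 ^ (ε * n)) n}

theorem small_of_coded {g : ℕ → Alg × Polynomial ℕ} {A : Oracle} {E n e : ℕ}
    (hlen : (famE g).Len E n)
    (h : ∃ (v : List Bool) (c : ℕ), v.length + (famE g).r E n + c = (famE g).ℓ E n ∧
        ∀ x : List Bool, x.length = (famE g).r E n →
          (A (v ++ x ++ List.replicate c false) = true ↔ (famE g).Q E n e x A))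
    {L : Set (List Bool)}
    (hL : ∀ x : List Bool, ∃ z : List Bool,
      (g e).1.run A x (2 ^ (g e).2.eval x.length) [] = some z ∧ (x ∈ L ↔ z = [true]))
    {ε : ℝ} (hε : (1 : ℝ) / E ≤ ε) : Small A L (2 ^ (ε * n)) n := by
  obtain ⟨v, c, h1, h2⟩ := h
  obtain ⟨C, hC1, hC2⟩ := exists_circuit v (List.replicate c false) n
  refine ⟨C, ?_, fun x hx => ?_⟩
  · have h3 : C.size = (famE g).ℓ E n + 1 := by
      rw [hC1, List.length_replicate]
      have h4 : v.length + n + c = (famE g).ℓ E n := h1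
      omega
    have h5 : (famE g).ℓ E n + 1 < 2 ^ (n / E) := by
      have h6 := hlen.1
      have h7 : (famE g).ℓ E n = 2 ^ (n / E) - 2 := rfl
      omega
    have h6 : (C.size : ℝ) < ((2 ^ (n / E) : ℕ) : ℝ) := by
      rw [h3]
      exact_mod_cast h5
    refine lt_of_lt_of_le h6 ?_
    push_cast
    rw [← Real.rpow_natCast]
    apply Real.rpow_le_rpow_of_exponent_le (by norm_num)
    refine (Nat.cast_div_le).trans ?_
    have h8 : (0 : ℝ) ≤ n := Nat.cast_nonneg n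
    calc (n : ℝ) / E = 1 / E * n := by ring
      _ ≤ ε * n := mul_le_mul_of_nonneg_right hε h8
  · rw [hC2 A x hx, h2 x hx]
    obtain ⟨z, hz, hxz⟩ := hL x
    rw [hxz]
    show _ ↔ (g e).1.run A x (2 ^ (g e).2.eval x.length) [] = some [true]
    rw [hz, Option.some.injEq]

theorem exists_pairs : ∃ g : ℕ → Alg × Polynomial ℕ, Function.Surjective g := by
  have h1 := CC.poly_countable
  obtain ⟨al, hal⟩ := exists_alg
  have h2 : Countable Alg := hal.countable
  have h3 : Nonempty (Alg × Polynomial ℕ) := ⟨(al 0, 0)⟩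
  exact exists_surjective_nat (Alg × Polynomial ℕ)

theorem ev_one_div {μ : ℕ → ℕ} (hμ : Tendsto μ atTop atTop) {ε : ℝ} (hε : 0 < ε) (e : ℕ) :
    ∀ᶠ t in atTop, e < μ t ∧ (1 : ℝ) / μ t ≤ ε := by
  have h1 : Tendsto (fun t => (1 : ℝ) / μ t) atTop (nhds 0) :=
    (tendsto_one_div_atTop_nhds_zero_nat (𝕜 := ℝ)).comp hμ
  exact (hμ.eventually_gt_atTop e).and (h1.eventually_le_const hε)

/-- The exceptional sets for exponential time are large. -/
theorem easy_main : (∀ f : ℕ → ℝ, ¬ CondA f → ¬ Null f easyIO) ∧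
    (∀ f : ℕ → ℝ, ¬ CondB f → ¬ Null f easyAE) ∧
    (∀ g : ℕ → ℝ, ¬ PolyA g → ∀ O : Oracle, ∃ A : Oracle,
      Pool.Agent.W900.CH.Close g O A ∧ A ∈ easyIO) ∧
    (∀ g : ℕ → ℝ, ¬ PolyB g → ∀ O : Oracle, ∃ A : Oracle,
      Pool.Agent.W900.CH.Close g O A ∧ A ∈ easyAE) := by
  obtain ⟨g, hg⟩ := exists_pairs
  refine (famE_reg g).main _ _ ?_ ?_
  · rintro A ν μ h1 h2 h3 h4 h5 L ⟨M, q, -, hM⟩ ε hε
    obtain ⟨e, he⟩ := hg (M, q)
    have h6 : ∀ᶠ t in atTop, Small A L (2 ^ (ε * ν t)) (ν t) := by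
      filter_upwards [ev_one_div h2 hε e] with t ht
      refine small_of_coded (h4 t) (h5 t e ht.1) (fun x => ?_) ht.2
      rw [he]
      exact hM x
    exact h1.tendsto_atTop.frequently h6.frequently
  · rintro A n₀ μ h2 h3 h4 h5 L ⟨M, q, -, hM⟩ ε hε
    obtain ⟨e, he⟩ := hg (M, q)
    have h6 : ∀ᶠ t in atTop, Small A L (2 ^ (ε * (n₀ + t : ℕ))) (n₀ + t) := by
      filter_upwards [ev_one_div h2 hε e] with t ht
      refine small_of_coded (h4 t) (h5 t e ht.1) (fun x => ?_) ht.2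
      rw [he]
      exact hM x
    obtain ⟨t₀, ht₀⟩ := eventually_atTop.1 h6
    filter_upwards [eventually_ge_atTop (n₀ + t₀)] with n hn
    obtain ⟨t, rfl⟩ : ∃ t, n = n₀ + t := ⟨n - n₀, by omega⟩
    exact ht₀ t (by omega)

end Pool.Agent.TH707.EC
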