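import Pool.Agent.TH707.EC.FamG
import Pool.Agent.TH707.EC.EasyE
import Pool.Agent.TH707.EC.AsyG

/-!
# Oracles relative to which all generators fail
-/

set_option autoImplicit false

namespace Pool.Agent.TH707.EC

open Pool.Agent.NPC Pool.Agent.H620R2.Gauge Finset MeasureTheory Filter
open Pool.Agent.H622R2.Ckt

theorem exists_circuit_take (u v : List Bool) (r : ℕ) : ∃ C : Circuit,
    C.size = u.length + r + v.length + 1 ∧
    ∀ (A : Oracle) (x : List Bool), r ≤ x.length → C.eval A x = A (u ++ x.take r ++ v) := by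
  refine ⟨⟨[Gate.ask (u.map Wire.cst ++ (List.range r).map Wire.inp ++ v.map Wire.cst)],
    Wire.gate 0⟩, ?_, ?_⟩
  · simp [Circuit.size, Gate.size, Nat.add_assoc]
  · intro A x hx
    have h1 : ∀ (w x z : List Bool), (w.map Wire.cst).map (Wire.val x z) = w := by
      intro w x z
      rw [List.map_map]
      exact List.map_id w
    have h2 : ((List.range r).map Wire.inp).map (Wire.val x []) = x.take r := by
      rw [List.map_map]
      apply List.ext_getElem
      · simp [hx]
      · intro i h3 h4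
        rw [List.length_take] at h4
        simp [Wire.val, List.getElem?_eq_getElem (show i < x.length by omega)]
    simp only [Circuit.eval, gateVals, List.foldl_cons, List.foldl_nil, Gate.val, Wire.val,
      List.map_append, h1, h2, List.nil_append]
    simp

theorem frac_one {n : ℕ} {p : List Bool → Prop} (h : ∀ x, x.length = n → p x) : frac n p = 1 := by
  classical
  rw [frac_eq]
  have h1 : (univ.filter fun f : Fin n → Bool => p (List.ofFn f)) = univ := by
    ext f
    simp only [mem_filter, mem_univ, true_and, iff_true]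
    exact h _ List.length_ofFn
  rw [h1, card_univ]
  simp

theorem frac_le {n a b : ℕ} {p : List Bool → Prop} (F : List Bool → List Bool)
    (hab : a + 2 ≤ n - b) (hb : b ≤ n)
    (h : ∀ x : List Bool, x.length = n → p x → ∃ s : List Bool, s.length = a ∧
      x.take (n - b) = F s) : frac n p ≤ 1 / 4 := by
  classical
  unfold frac
  rw [div_le_iff₀ (by positivity)]
  have h1 : Set.ncard {x : List Bool | x.length = n ∧ p x} ≤ 2 ^ a * 2 ^ b := by
    have h2 : {x : List Bool | x.length = n ∧ p x} ⊆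
        (((keys a ×ˢ keys b).image fun q => F q.1 ++ q.2 : Finset (List Bool)) :
          Set (List Bool)) := by
      rintro x ⟨hx, hp⟩
      obtain ⟨s, hs, h3⟩ := h x hx hp
      rw [mem_coe, mem_image]
      refine ⟨(s, x.drop (n - b)), mem_product.2 ⟨mem_keys.2 hs, mem_keys.2 ?_⟩, ?_⟩
      · rw [List.length_drop, hx]
        omega
      · dsimp only
        rw [← h3, List.take_append_drop]
    refine (Set.ncard_le_ncard h2 (Finset.finite_toSet _)).trans ?_
    rw [Set.ncard_coe_finset]
    refine card_image_le.trans (le_of_eq ?_)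
    rw [card_product, card_keys, card_keys]
  have h2 : 2 ^ a * 2 ^ b * 4 ≤ 2 ^ n := by
    rw [← pow_add, show (4 : ℕ) = 2 ^ 2 by norm_num, ← pow_add]
    exact Nat.pow_le_pow_right (by norm_num) (by omega)
  have h3 : ((Set.ncard {x : List Bool | x.length = n ∧ p x} : ℕ) : ℝ) * 4 ≤ 2 ^ n := by
    have := (Nat.mul_le_mul_right 4 h1).trans h2
    exact_mod_cast this
  linarith

theorem not_good {g : ℕ → Alg × Alg} {A : Oracle} {E m e : ℕ} (hlen : (famG g).Len E m)
    (h : ∃ (v : List Bool) (c : ℕ), v.length + (famG g).r E m + c = (famG g).ℓ E m ∧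
        ∀ x : List Bool, x.length = (famG g).r E m →
          (A (v ++ x ++ List.replicate c false) = true ↔ (famG g).Q E m e x A))
    {D G : List Bool → List Bool} (hD : ∀ x, (g e).1.out A x = some (D x))
    (hG : ∀ x, (g e).2.out A x = some (G x)) {c : ℝ} (hc : 2 * c ≤ E) (hm : 2 ≤ m) :
    ¬ GoodAt A D G c m := by
  rintro ⟨h1, -, h3, h4⟩
  set d := (D (ones m)).length with hd
  set r := E * Nat.log 2 m + 2 with hr
  have hl1 : 1 ≤ Nat.log 2 m := Nat.le_log_of_pow_le (by norm_num) (by omega)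
  have hdE : d ≤ E * Nat.log 2 m := by
    have h5 : Real.logb 2 m ≤ 2 * (Nat.log 2 m : ℕ) := by
      have h6 : (m : ℝ) ≤ 2 ^ (2 * Nat.log 2 m) := by
        have h7 := (Nat.lt_pow_succ_log_self (b := 2) (by norm_num) m).le
        have h8 : 2 ^ (Nat.log 2 m).succ ≤ 2 ^ (2 * Nat.log 2 m) :=
          Nat.pow_le_pow_right (by norm_num) (by simp only [Nat.succ_eq_add_one]; omega)
        exact_mod_cast h7.trans h8
      refine (Real.logb_le_logb_of_le (by norm_num) (by
        have : 0 < m := by omega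
        exact_mod_cast this) h6).trans (le_of_eq ?_)
      rw [Real.logb_pow, Real.logb_self_eq_one (by norm_num), mul_one]
      push_cast
      rfl
    have hlog0 : 0 ≤ Real.logb 2 m := Real.logb_nonneg (by norm_num) (by
      have : 1 ≤ m := by omega
      exact_mod_cast this)
    have h6 : (d : ℝ) ≤ (E : ℝ) * (Nat.log 2 m : ℕ) := by
      have h7 : (0 : ℝ) ≤ (Nat.log 2 m : ℕ) := Nat.cast_nonneg _
      have h8 : (0 : ℝ) ≤ E := Nat.cast_nonneg _
      calc (d : ℝ) ≤ c * Real.logb 2 m := h1
        _ ≤ E / 2 * Real.logb 2 m := by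
            refine mul_le_mul_of_nonneg_right ?_ hlog0
            linarith
        _ ≤ E / 2 * (2 * (Nat.log 2 m : ℕ)) := by
            refine mul_le_mul_of_nonneg_left h5 (by positivity)
        _ = _ := by ring
    exact_mod_cast h6
  have hl := hlen.1
  have hrm : r ≤ m - 2 := by
    have e1 : (famG g).r E m = r := rfl
    have e2 : (famG g).ℓ E m = m - 2 := rfl
    omega
  obtain ⟨v, cc, h5, h6⟩ := h
  obtain ⟨C, hC1, hC2⟩ := exists_circuit_take v (List.replicate cc false) r
  have hsize : C.size ≤ m := by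
    rw [hC1, List.length_replicate]
    have e1 : (famG g).r E m = r := rfl
    have e2 : (famG g).ℓ E m = m - 2 := rfl
    omega
  have hQ : ∀ x : List Bool, x.length = m →
      (C.eval A x = true ↔ QG g E m e (x.take r) A) := by
    intro x hx
    rw [hC2 A x (by omega)]
    exact h6 (x.take r) (by
      rw [List.length_take, hx]
      have e1 : (famG g).r E m = r := rfl
      omega)
  have h7 : frac d (fun s => C.eval A (G (pairBits (ones m) s)) = true) = 1 := by
    refine frac_one fun s hs => ?_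
    rw [hQ _ (h3 s hs)]
    exact ⟨D (ones m), hD _, hdE, s, G (pairBits (ones m) s), hs, hG _, rfl⟩
  have h8 : frac m (fun x => C.eval A x = true) ≤ 1 / 4 := by
    refine frac_le (a := d) (b := m - r) (fun s => (G (pairBits (ones m) s)).take r)
      (by omega) (by omega) ?_
    intro x hx hp
    rw [hQ x hx] at hp
    obtain ⟨z, hz, -, s, z', hs, hz', hy⟩ := hp
    rw [hD, Option.some.injEq] at hz
    rw [hG, Option.some.injEq] at hz'
    refine ⟨s, by rw [hs, ← hz], ?_⟩
    have e1 : m - (m - r) = r := by omega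
    rw [e1, ← hy, ← hz']
  have h9 := h4 C hsize
  dsimp only at h9
  rw [h7] at h9
  have h10 := (abs_le.1 h9).2
  linarith

theorem exists_pairsG : ∃ g : ℕ → Alg × Alg, Function.Surjective g := by
  obtain ⟨al, hal⟩ := exists_alg
  have h2 : Countable Alg := hal.countable
  have h3 : Nonempty (Alg × Alg) := ⟨(al 0, al 0)⟩
  exact exists_surjective_nat (Alg × Alg)

/-- The exceptional sets for generators are large. -/
theorem easyG_main : (∀ f : ℕ → ℝ, ¬ CondA f → ¬ Null f noGenAE) ∧
    (∀ f : ℕ → ℝ, ¬ CondB f → ¬ Null f noGenIO) ∧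
    (∀ g : ℕ → ℝ, ¬ PolyA g → ∀ O : Oracle, ∃ A : Oracle,
      Pool.Agent.W900.CH.Close g O A ∧ A ∈ noGenAE) ∧
    (∀ g : ℕ → ℝ, ¬ PolyB g → ∀ O : Oracle, ∃ A : Oracle,
      Pool.Agent.W900.CH.Close g O A ∧ A ∈ noGenIO) := by
  obtain ⟨g, hg⟩ := exists_pairsG
  refine (famG_reg g).main _ _ ?_ ?_
  · rintro A ν μ h1 h2 h3 h4 h5 ⟨D, G, ⟨MD, hD⟩, ⟨MG, hG⟩, c, hc⟩
    obtain ⟨e, he⟩ := hg (MD, MG)
    obtain ⟨E₀, hE₀⟩ := exists_nat_ge (2 * c)
    have h6 := h1.tendsto_atTop.eventually (hc.and (eventually_ge_atTop 2))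
    obtain ⟨t, h7, h8⟩ := (h6.and ((h2.eventually_gt_atTop e).and
      (h2.eventually_ge_atTop E₀))).exists
    refine not_good (h4 t) (h5 t e h8.1) (fun x => ?_) (fun x => ?_) ?_ h7.2 h7.1
    · rw [he]; exact hD x
    · rw [he]; exact hG x
    · exact hE₀.trans (by exact_mod_cast h8.2)
  · rintro A n₀ μ h2 h3 h4 h5 ⟨D, G, ⟨MD, hD⟩, ⟨MG, hG⟩, c, hc⟩
    obtain ⟨e, he⟩ := hg (MD, MG)
    obtain ⟨E₀, hE₀⟩ := exists_nat_ge (2 * c)
    obtain ⟨t₀, ht₀⟩ := eventually_atTop.1 ((h2.eventually_gt_atTop e).and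
      (h2.eventually_ge_atTop E₀))
    obtain ⟨m, h6, h7⟩ := (hc.and_eventually (eventually_ge_atTop (max 2 (n₀ + t₀)))).exists
    obtain ⟨t, rfl⟩ : ∃ t, m = n₀ + t := ⟨m - n₀, by
      have := (le_max_right 2 (n₀ + t₀)).trans h7
      omega⟩
    have h8 := ht₀ t (by
      have := (le_max_right 2 (n₀ + t₀)).trans h7
      omega)
    refine not_good (h4 t) (h5 t e h8.1) (fun x => ?_) (fun x => ?_) ?_
      ((le_max_left _ _).trans h7) h6
    · rw [he]; exact hD x
    · rw [he]; exact hG x
    · exact hE₀.trans (by exact_mod_cast h8.2)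

end Pool.Agent.TH707.EC
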