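import Pool.Agent.TH707.EC.Mass

/-!
# Families of jobs
-/

set_option autoImplicit false

namespace Pool.Agent.TH707.EC

open Pool.Agent.NPC Pool.Agent.H620R2.Gauge Finset MeasureTheory Filter
open Pool.Agent.W900.CH (Close)

/-- A family of possible jobs, for the first `E` questions at the scale `n`. -/
structure Fam : Type where
  /-- the length of the inputs -/
  r : ℕ → ℕ → ℕ
  /-- it is monotone -/
  r_mono : ∀ {E E'} (n : ℕ), E ≤ E' → r E n ≤ r E' n
  /-- the length of the code strings -/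
  ℓ : ℕ → ℕ → ℕ
  /-- the questions -/
  Q : ℕ → ℕ → ℕ → List Bool → Oracle → Prop
  /-- the number of the strings on which the answers depend -/
  u : ℕ → ℕ → ℕ
  /-- it is monotone -/
  u_mono : ∀ {E E'} (n : ℕ), E ≤ E' → u E n ≤ u E' n
  /-- the answers depend on few strings -/
  loc : ∀ (E n : ℕ) (A : Oracle), ∃ U : Finset (List Bool), U.card ≤ u E n ∧
    ∀ A' : Oracle, (∀ y ∈ U, A' y = A y) →
      ∀ e < E, ∀ x : List Bool, x.length = r E n → (Q E n e x A' ↔ Q E n e x A)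

variable (F : Fam)

/-- the total number of the strings, up to scale `n` -/
def Fam.tot (E n : ℕ) : ℕ := ∑ i ∈ range (n + 1), F.u E i

/-- the length of the keys -/
def Fam.k (E n : ℕ) : ℕ := Nat.log 2 (F.tot E n) + 1

/-- the cost of the jobs up to scale `n` -/
def Fam.cost (E n : ℕ) : ℕ := ∑ i ∈ range (n + 1), (E * 2 ^ F.r E i + F.k E i)

/-- the code strings are long enough -/
def Fam.Len (E n : ℕ) : Prop :=
  2 * (Nat.bits n).length + 1 + F.k E n + E + 1 + F.r E n ≤ F.ℓ E n ∧ n ≤ F.ℓ E n + 2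

/-- the job is possible and cheap -/
def Fam.Good (f : ℕ → ℝ) (E n : ℕ) : Prop :=
  F.Len E n ∧ ∀ N : ℕ, 2 ^ F.ℓ E n ≤ N → (F.cost E n : ℝ) ≤ f N

theorem Fam.tot_mono {E E' : ℕ} (n : ℕ) (h : E ≤ E') : F.tot E n ≤ F.tot E' n :=
  sum_le_sum fun i _ => F.u_mono i h

theorem Fam.k_mono {E E' : ℕ} (n : ℕ) (h : E ≤ E') : F.k E n ≤ F.k E' n :=
  Nat.succ_le_succ (Nat.log_mono_right (F.tot_mono n h))

theorem Fam.tot_lt (E n : ℕ) : F.tot E n < 2 ^ F.k E n :=
  Nat.lt_pow_succ_log_self (by norm_num) _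

theorem length_bits_mono {a b : ℕ} (h : a ≤ b) : (Nat.bits a).length ≤ (Nat.bits b).length := by
  rw [Nat.size_eq_bits_len, Nat.size_eq_bits_len]
  exact Nat.size_le_size h

/-- sums over the values of an increasing sequence -/
theorem sum_le_range {ν : ℕ → ℕ} (hν : StrictMono ν) (a : ℕ → ℕ) (S : Finset ℕ) (t : ℕ)
    (hS : ∀ s ∈ S, s ≤ t) : ∑ s ∈ S, a (ν s) ≤ ∑ i ∈ range (ν t + 1), a i := by
  classical
  rw [← sum_image (f := a) (g := ν) (fun x _ y _ h => hν.injective h)]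
  refine sum_le_sum_of_subset ?_
  intro i hi
  rw [mem_image] at hi
  obtain ⟨s, hs, rfl⟩ := hi
  rw [mem_range]
  exact Nat.lt_succ_of_le (hν.monotone (hS s hs))

/-- the sequence of jobs -/
def Fam.toJobs (ν μ : ℕ → ℕ) (hν : StrictMono ν) (h2 : 2 ≤ ν 0) (hμ : Monotone μ)
    (hlen : ∀ t, F.Len (μ t) (ν t)) : Jobs where
  M := μ
  r t := F.r (μ t) (ν t)
  k t := F.k (μ t) (ν t)
  ℓ t := F.ℓ (μ t) (ν t)
  Q t e x A := F.Q (μ t) (ν t) e x A
  u t := F.u (μ t) (ν t)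
  loc t A := F.loc (μ t) (ν t) A
  key := by
    intro t
    refine lt_of_le_of_lt ?_ (F.tot_lt (μ t) (ν t))
    have h1 : ∑ s ∈ range (t + 1), F.u (μ s) (ν s) ≤ ∑ s ∈ range (t + 1), F.u (μ t) (ν s) :=
      sum_le_sum fun s hs => F.u_mono _ (hμ (Nat.lt_succ_iff.1 (mem_range.1 hs)))
    exact h1.trans (sum_le_range hν (F.u (μ t)) _ t fun s hs =>
      Nat.lt_succ_iff.1 (mem_range.1 hs))
  len := by
    intro t
    have h1 := (hlen t).1
    have h3 := length_bits_mono (hν.id_le t)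
    simp only [id_eq] at h3
    omega
  le := by
    intro t
    have h1 := (hlen t).2
    have h3 : ν 0 + t ≤ ν t := by
      induction t with
      | zero => exact le_rfl
      | succ t ih =>
        have h4 := hν (Nat.lt_succ_self t)
        have h5 := ih (hlen t).2
        simp only [Nat.succ_eq_add_one] at h4
        omega
    omega

variable {F}
variable {ν μ : ℕ → ℕ} {hν : StrictMono ν} {h2 : 2 ≤ ν 0} {hμ : Monotone μ}
  {hlen : ∀ t, F.Len (μ t) (ν t)}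

theorem Fam.sum_jobs {f : ℕ → ℝ} (hf : ∀ t, F.Good f (μ t) (ν t)) (N : ℕ) (hN : N ≠ 0)
    (hne : ((F.toJobs ν μ hν h2 hμ hlen).jobs (Nat.log 2 N)).Nonempty) :
    ((∑ t ∈ (F.toJobs ν μ hν h2 hμ hlen).jobs (Nat.log 2 N),
      ((F.toJobs ν μ hν h2 hμ hlen).M t * 2 ^ (F.toJobs ν μ hν h2 hμ hlen).r t +
        (F.toJobs ν μ hν h2 hμ hlen).k t) : ℕ) : ℝ) ≤ f N := by
  set J := F.toJobs ν μ hν h2 hμ hlen with hJ
  set t := (J.jobs (Nat.log 2 N)).max' hne with ht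
  have h1 : t ∈ J.jobs (Nat.log 2 N) := max'_mem _ _
  have h3 : ∀ s ∈ J.jobs (Nat.log 2 N), s ≤ t := fun s hs => le_max' _ s hs
  rw [J.mem_jobs] at h1
  have h4 : 2 ^ F.ℓ (μ t) (ν t) ≤ N :=
    (Nat.pow_le_pow_right (by norm_num) h1).trans (Nat.pow_log_le_self 2 hN)
  refine le_trans ?_ ((hf t).2 N h4)
  have h5 : ∑ s ∈ J.jobs (Nat.log 2 N), (J.M s * 2 ^ J.r s + J.k s) ≤ F.cost (μ t) (ν t) := by
    have h6 : ∑ s ∈ J.jobs (Nat.log 2 N), (J.M s * 2 ^ J.r s + J.k s) ≤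
        ∑ s ∈ J.jobs (Nat.log 2 N), (μ t * 2 ^ F.r (μ t) (ν s) + F.k (μ t) (ν s)) := by
      refine sum_le_sum fun s hs => ?_
      have h7 := hμ (h3 s hs)
      refine Nat.add_le_add (Nat.mul_le_mul h7 (Nat.pow_le_pow_right (by norm_num) ?_)) ?_
      · exact F.r_mono _ h7
      · exact F.k_mono _ h7
    exact h6.trans (sum_le_range hν (fun i => μ t * 2 ^ F.r (μ t) i + F.k (μ t) i) _ t h3)
  exact_mod_cast h5

theorem Fam.not_null {f : ℕ → ℝ} (hf : ∀ t, F.Good f (μ t) (ν t)) (O : Set Oracle)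
    (hO : ∀ B, (F.toJobs ν μ hν h2 hμ hlen).fin B ∈ O) : ¬ Null f O := by
  set J := F.toJobs ν μ hν h2 hμ hlen with hJ
  set d : ℝ := ∑ N ∈ range (2 ^ F.ℓ (μ 0) (ν 0)), |f N| with hd
  have hd1 : ∀ N < 2 ^ F.ℓ (μ 0) (ν 0), 0 ≤ f N + d := by
    intro N hN
    have h1 : |f N| ≤ d := single_le_sum (f := fun N => |f N|) (fun i _ => abs_nonneg _)
      (mem_range.2 hN)
    have h3 := neg_abs_le (f N)
    linarith
  have hd0 : 0 ≤ d := sum_nonneg fun _ _ => abs_nonneg _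
  refine J.not_null f d (fun N hN => ?_) (hd1 0 (by positivity)) O hO
  by_cases hne : (J.jobs (Nat.log 2 N)).Nonempty
  · have h1 := Fam.sum_jobs (hν := hν) (h2 := h2) (hμ := hμ) (hlen := hlen) hf N (by omega) hne
    rw [← hJ] at h1
    linarith
  · have h1 := not_nonempty_iff_eq_empty.1 hne
    rw [h1, sum_empty]
    push_cast
    refine hd1 N ?_
    by_contra hc
    have h3 : 0 ∈ J.jobs (Nat.log 2 N) := by
      rw [J.mem_jobs]
      exact Nat.le_log_of_pow_le (by norm_num) (not_lt.1 hc)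
    rw [h1] at h3
    exact absurd h3 (notMem_empty _)

theorem Fam.close {g : ℕ → ℝ} (hf : ∀ t, F.Good (fun N => g (Nat.log 2 N)) (μ t) (ν t))
    (B : Oracle) : Close g B ((F.toJobs ν μ hν h2 hμ hlen).fin B) := by
  set J := F.toJobs ν μ hν h2 hμ hlen with hJ
  unfold Close
  filter_upwards [eventually_ge_atTop (F.ℓ (μ 0) (ν 0))] with n hn
  have h1 := J.dist_le B n
  have h3 : Nat.log 2 (2 ^ n) = n := Nat.log_pow (by norm_num) n
  have hne : (J.jobs (Nat.log 2 (2 ^ n))).Nonempty := ⟨0, by rw [J.mem_jobs, h3]; exact hn⟩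
  have h4 := Fam.sum_jobs (hν := hν) (h2 := h2) (hμ := hμ) (hlen := hlen) hf (2 ^ n)
    (by positivity) hne
  rw [← hJ, h3] at h4
  refine le_trans ?_ h4
  have h5 : Pool.Agent.W900.CH.dist B (J.fin B) n ≤
      ∑ t ∈ J.jobs n, (J.M t * 2 ^ J.r t + J.k t) :=
    h1.trans (sum_le_sum fun t _ => Nat.le_add_right _ _)
  exact_mod_cast h5

/-- scales for infinitely many `n` -/
theorem seqA {G : ℕ → ℕ → Prop} (h : ∀ E : ℕ, 1 ≤ E → ∃ᶠ n : ℕ in atTop, G E n) :
    ∃ ν μ : ℕ → ℕ, StrictMono ν ∧ 2 ≤ ν 0 ∧ Monotone μ ∧ Tendsto μ atTop atTop ∧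
      (∀ t, 1 ≤ μ t) ∧ ∀ t, G (μ t) (ν t) := by
  obtain ⟨φ, h1, h2⟩ := extraction_forall_of_frequently (P := fun t n => 2 ≤ n ∧ G (t + 1) n)
    (fun t => ((h (t + 1) (by omega)).and_eventually (eventually_ge_atTop 2)).mono
      fun n hn => ⟨hn.2, hn.1⟩)
  exact ⟨φ, fun t => t + 1, h1, (h2 0).1, fun a b hab => Nat.succ_le_succ hab,
    tendsto_add_atTop_nat 1, fun t => Nat.succ_le_succ (Nat.zero_le _), fun t => (h2 t).2⟩

/-- scales for all large `n` -/
theorem seqB {G : ℕ → ℕ → Prop} (h : ∀ E : ℕ, 1 ≤ E → ∀ᶠ n : ℕ in atTop, G E n) :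
    ∃ (n₀ : ℕ) (μ : ℕ → ℕ), 2 ≤ n₀ ∧ Monotone μ ∧ Tendsto μ atTop atTop ∧
      (∀ t, 1 ≤ μ t) ∧ ∀ t, G (μ t) (n₀ + t) := by
  have h1 : ∀ E, ∃ m : ℕ, ∀ n ≥ m, 2 ≤ n ∧ G (E + 1) n := by
    intro E
    obtain ⟨m, hm⟩ := eventually_atTop.1 ((h (E + 1) (by omega)).and (eventually_ge_atTop 2))
    exact ⟨m, fun n hn => ⟨(hm n hn).2, (hm n hn).1⟩⟩
  choose m hm using h1
  -- the number of questions at scale `n`
  let P : ℕ → ℕ → Prop := fun n E => ∀ n' ≥ n, G (E + 1) n'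
  classical
  set n₀ := max 2 (m 0) with hn₀
  refine ⟨n₀, fun t => Nat.findGreatest (P (n₀ + t)) t + 1, le_max_left _ _, ?_, ?_,
    fun t => Nat.succ_le_succ (Nat.zero_le _), ?_⟩
  · intro a b hab
    refine Nat.succ_le_succ ?_
    refine (Nat.findGreatest_mono_right _ hab).trans ?_
    refine Nat.findGreatest_mono_left (fun E hE n' hn' => hE n' ?_) b
    omega
  · refine tendsto_atTop.2 fun b => ?_
    filter_upwards [eventually_ge_atTop (max b (m b))] with t ht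
    have h3 : b ≤ Nat.findGreatest (P (n₀ + t)) t := by
      refine Nat.le_findGreatest ((le_max_left _ _).trans ht) fun n' hn' => ?_
      refine (hm b n' ?_).2
      have := (le_max_right b (m b)).trans ht
      omega
    omega
  · intro t
    have h3 : P (n₀ + t) 0 := fun n' hn' => (hm 0 n' (by
      have := le_max_right 2 (m 0)
      omega)).2
    have h4 : P (n₀ + t) (Nat.findGreatest (P (n₀ + t)) t) :=
      Nat.findGreatest_spec (P := P (n₀ + t)) (Nat.zero_le t) h3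
    exact h4 _ le_rfl

end Pool.Agent.TH707.EC
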