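import Pool.Agent.TH707.EC.Growth
import Pool.Agent.H620R2.GaugeX.X1
import Pool.Agent.H620R2.Gauge.C

/-!
# The family for exponential time
-/

set_option autoImplicit false

namespace Pool.Agent.TH707.EC

open Pool.Agent.NPC Pool.Agent.H620R2.Gauge Finset MeasureTheory Filter

theorem poly_le_two_pow (R : Polynomial ℕ) : ∀ᶠ n : ℕ in atTop, R.eval n ≤ 2 ^ n := by
  have h1 : ∀ d : ℕ, ∀ᶠ n : ℕ in atTop, (n : ℝ) ^ d ≤ 2 ^ n := by
    intro d
    have h2 := tendsto_pow_const_div_const_pow_of_one_lt d (r := (2 : ℝ)) (by norm_num)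
    filter_upwards [h2.eventually_le_const (by norm_num : (0 : ℝ) < 1)] with n hn
    rwa [div_le_one (by positivity)] at hn
  obtain ⟨d, c, hd⟩ : ∃ d c : ℕ, ∀ n : ℕ, 1 ≤ n → R.eval n ≤ c * n ^ d := by
    refine ⟨R.natDegree, R.eval 1, fun n hn => ?_⟩
    rw [Polynomial.eval_eq_sum_range, Polynomial.eval_eq_sum_range, sum_mul]
    refine sum_le_sum fun i hi => ?_
    rw [one_pow, mul_one]
    refine Nat.mul_le_mul_left _ (Nat.pow_le_pow_right hn ?_)
    exact Nat.lt_succ_iff.1 (mem_range.1 hi)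
  filter_upwards [h1 (d + 1), eventually_ge_atTop (c + 1)] with n h3 h4
  have h5 : n ^ (d + 1) ≤ 2 ^ n := by exact_mod_cast h3
  refine (hd n (by omega)).trans (le_trans ?_ h5)
  rw [pow_succ, mul_comm]
  exact Nat.mul_le_mul_left _ (by omega)

theorem eval_mono' (p : Polynomial ℕ) {a b : ℕ} (h : a ≤ b) : p.eval a ≤ p.eval b := by
  rw [Polynomial.eval_eq_sum_range, Polynomial.eval_eq_sum_range]
  exact sum_le_sum fun i _ => Nat.mul_le_mul_left _ (Nat.pow_le_pow_left h i)

theorem tendsto_div {E : ℕ} (hE : 1 ≤ E) : Tendsto (fun n : ℕ => n / E) atTop atTop :=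
  Nat.tendsto_div_const_atTop (by omega)

theorem poly_le_two_pow_div (R : Polynomial ℕ) {E : ℕ} (hE : 1 ≤ E) :
    ∀ᶠ n : ℕ in atTop, R.eval n + 2 ≤ 2 ^ (n / E) := by
  have h1 := (tendsto_div hE).eventually (poly_le_two_pow
    (R.comp (Polynomial.C E * (Polynomial.X + 1)) + Polynomial.C 2))
  filter_upwards [h1] with n hn
  refine le_trans ?_ hn
  rw [Polynomial.eval_add, Polynomial.eval_comp, Polynomial.eval_C]
  refine Nat.add_le_add_right (eval_mono' _ ?_) _
  simp only [Polynomial.eval_mul, Polynomial.eval_C, Polynomial.eval_add, Polynomial.eval_X,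
    Polynomial.eval_one]
  have := Nat.lt_mul_div_succ n (show 0 < E by omega)
  exact this.le

/-- the family for exponential time; `g` enumerates the algorithms and the exponents -/
def famE (g : ℕ → Alg × Polynomial ℕ) : Fam where
  r _ n := n
  r_mono _ _ := le_rfl
  ℓ E n := 2 ^ (n / E) - 2
  Q _ _ e x A := (g e).1.run A x (2 ^ (g e).2.eval x.length) [] = some [true]
  u E n := ∑ e ∈ range E, 2 ^ (n + (g e).2.eval n)
  u_mono n h := sum_le_sum_of_subset (range_mono h)
  loc := by
    classical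
    intro E n A
    choose U hU1 hU2 using fun (e : ℕ) (x : List Bool) =>
      run_local (g e).1 A x (2 ^ (g e).2.eval x.length) []
    refine ⟨(range E).biUnion fun e => (keys n).biUnion fun x => U e x, ?_, ?_⟩
    · refine card_biUnion_le.trans (sum_le_sum fun e _ => ?_)
      refine card_biUnion_le.trans ?_
      have h1 : ∀ x ∈ keys n, (U e x).card ≤ 2 ^ (g e).2.eval n := by
        intro x hx
        have h2 := hU1 e x
        rwa [mem_keys.1 hx] at h2
      refine (sum_le_sum h1).trans ?_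
      rw [sum_const, smul_eq_mul, card_keys, pow_add]
    · intro A' hA' e he x hx
      have h1 := hU2 e x A' fun y hy => hA' y (mem_biUnion.2 ⟨e, mem_range.2 he,
        mem_biUnion.2 ⟨x, mem_keys.2 hx, hy⟩⟩)
      rw [h1]

/-- a polynomial bound for the length of the keys -/
noncomputable def kP (g : ℕ → Alg × Polynomial ℕ) (E : ℕ) : Polynomial ℕ :=
  2 * Polynomial.X + ∑ e ∈ range E, (g e).2 + Polynomial.C (E + 1)

theorem famE_k_le (g : ℕ → Alg × Polynomial ℕ) (E n : ℕ) : (famE g).k E n ≤ (kP g E).eval n := by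
  have h0 : (kP g E).eval n = 2 * n + ∑ e ∈ range E, (g e).2.eval n + (E + 1) := by
    unfold kP
    simp only [Polynomial.eval_add, Polynomial.eval_mul, Polynomial.eval_C, Polynomial.eval_X,
      Polynomial.eval_finsetSum, Polynomial.eval_ofNat]
  set s := ∑ e ∈ range E, (g e).2.eval n with hs
  have h1 : (famE g).tot E n ≤ 2 ^ (2 * n + s + E) := by
    unfold Fam.tot famE
    dsimp only
    have h2 : ∀ i ∈ range (n + 1), ∑ e ∈ range E, 2 ^ (i + (g e).2.eval i) ≤
        E * 2 ^ (n + s) := by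
      intro i hi
      have hi' : i ≤ n := Nat.lt_succ_iff.1 (mem_range.1 hi)
      have h3 : ∀ e ∈ range E, 2 ^ (i + (g e).2.eval i) ≤ 2 ^ (n + s) := by
        intro e he
        refine Nat.pow_le_pow_right (by norm_num) (Nat.add_le_add hi' ?_)
        exact (eval_mono' _ hi').trans
          (single_le_sum (f := fun e => (g e).2.eval n) (fun _ _ => Nat.zero_le _) he)
      refine (sum_le_sum h3).trans ?_
      rw [sum_const, card_range, smul_eq_mul]
    refine (sum_le_sum h2).trans ?_
    rw [sum_const, card_range, smul_eq_mul]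
    have h4 : n + 1 ≤ 2 ^ n := Nat.lt_two_pow_self
    have h5 : E ≤ 2 ^ E := Nat.lt_two_pow_self.le
    calc (n + 1) * (E * 2 ^ (n + s)) ≤ 2 ^ n * (2 ^ E * 2 ^ (n + s)) :=
          Nat.mul_le_mul h4 (Nat.mul_le_mul_right _ h5)
      _ = 2 ^ (2 * n + s + E) := by
          rw [← pow_add, ← pow_add]
          congr 1
          ring
  unfold Fam.k
  rw [h0]
  have h6 : Nat.log 2 ((famE g).tot E n) ≤ 2 * n + s + E := by
    refine (Nat.log_mono_right h1).trans (le_of_eq ?_)
    exact Nat.log_pow (by norm_num) _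
  omega

theorem famE_reg (g : ℕ → Alg × Polynomial ℕ) : (famE g).Reg where
  cheap := by
    intro E hE
    refine ⟨4 * E, ?_⟩
    have h1 := poly_le_two_pow_div (kP g E + 3 * Polynomial.X + Polynomial.C (E + 5)) hE
    have h2 := poly_le_two_pow ((Polynomial.X + 1) * (Polynomial.C E + kP g E))
    have h3 := (tendsto_div hE).eventually (eventually_ge_atTop 3)
    filter_upwards [h1, h2, h3] with n h4 h5 h6
    have hk := famE_k_le g E n
    simp only [Polynomial.eval_add, Polynomial.eval_mul, Polynomial.eval_C, Polynomial.eval_X,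
      Polynomial.eval_one, Polynomial.eval_ofNat] at h4 h5
    have hbits : (Nat.bits n).length ≤ n := by
      rw [Nat.size_eq_bits_len]
      exact Nat.size_le.2 Nat.lt_two_pow_self
    refine ⟨⟨?_, ?_⟩, ?_⟩
    · show 2 * (Nat.bits n).length + 1 + (famE g).k E n + E + 1 + n ≤ 2 ^ (n / E) - 2
      omega
    · show n ≤ 2 ^ (n / E) - 2 + 2
      omega
    · show (famE g).cost E n ≤ (2 ^ (n / E) - 2) ^ (4 * E)
      set j := n / E with hj
      have h7 : (famE g).cost E n ≤ 2 ^ (2 * n) := by
        unfold Fam.cost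
        have h8 : ∀ i ∈ range (n + 1), E * 2 ^ (famE g).r E i + (famE g).k E i ≤
            (E + (kP g E).eval n) * 2 ^ n := by
          intro i hi
          have hi' : i ≤ n := Nat.lt_succ_iff.1 (mem_range.1 hi)
          have h9 : (famE g).k E i ≤ (kP g E).eval n :=
            (famE_k_le g E i).trans (eval_mono' _ hi')
          have h10 : 2 ^ (famE g).r E i ≤ 2 ^ n := Nat.pow_le_pow_right (by norm_num) hi'
          have h11 : 1 ≤ 2 ^ n := Nat.one_le_two_pow
          nlinarith [Nat.mul_le_mul_left E h10, Nat.mul_le_mul_left ((kP g E).eval n) h11]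
        refine (sum_le_sum h8).trans ?_
        rw [sum_const, card_range, smul_eq_mul, two_mul, pow_add, ← mul_assoc]
        exact Nat.mul_le_mul_right _ h5
      refine h7.trans ?_
      have h8 : 2 ^ (j - 1) ≤ 2 ^ j - 2 := by
        obtain ⟨i, hi⟩ : ∃ i, j = i + 2 := ⟨j - 2, by omega⟩
        rw [hi]
        have e1 : 2 ^ (i + 2 - 1) = 2 * 2 ^ i := by
          rw [show i + 2 - 1 = i + 1 by omega, pow_succ]
          ring
        have e2 : 2 ^ (i + 2) = 4 * 2 ^ i := by rw [pow_add]; ring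
        have e3 : 1 ≤ 2 ^ i := Nat.one_le_two_pow
        omega
      refine le_trans ?_ (Nat.pow_le_pow_left h8 _)
      rw [← pow_mul]
      refine Nat.pow_le_pow_right (by norm_num) ?_
      have h9 : n < E * (j + 1) := Nat.lt_mul_div_succ n (by omega)
      obtain ⟨i, hi⟩ : ∃ i, j = i + 3 := ⟨j - 3, by omega⟩
      rw [hi] at h9 ⊢
      have e1 : i + 3 - 1 = i + 2 := by omega
      rw [e1]
      nlinarith [Nat.zero_le (E * i)]
  dense := by
    intro E hE
    filter_upwards with l
    refine ⟨E * (Nat.log 2 (l + 1) + 1), ?_⟩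
    show l ≤ 2 ^ (E * (Nat.log 2 (l + 1) + 1) / E) - 2 ∧
      2 ^ (E * (Nat.log 2 (l + 1) + 1) / E) - 2 ≤ 2 * l
    rw [Nat.mul_div_cancel_left _ (by omega)]
    have h1 : l + 1 < 2 ^ (Nat.log 2 (l + 1) + 1) := Nat.lt_pow_succ_log_self (by norm_num) _
    have h2 : 2 ^ Nat.log 2 (l + 1) ≤ l + 1 := Nat.pow_log_le_self 2 (by omega)
    rw [pow_succ] at h1 ⊢
    omega
  up := by
    intro E hE
    show Tendsto (fun n => 2 ^ (n / E) - 2) atTop atTop
    refine (tendsto_sub_atTop_nat 2).comp ?_
    exact (tendsto_pow_atTop_atTop_of_one_lt (by norm_num)).comp (tendsto_div hE)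

end Pool.Agent.TH707.EC
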