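import Pool.Agent.TH707.EC.FamE
import Pool.Agent.TH707.EC.DefsG

/-!
# The family for generators
-/

set_option autoImplicit false

namespace Pool.Agent.TH707.EC

open Pool.Agent.NPC Pool.Agent.H620R2.Gauge Finset MeasureTheory Filter

/-- the output of the generator number `e` on some seed starts with `y` -/
def QG (g : ℕ → Alg × Alg) (E m e : ℕ) (y : List Bool) (A : Oracle) : Prop :=
  ∃ z, (g e).1.out A (ones m) = some z ∧ z.length ≤ E * Nat.log 2 m ∧
    ∃ s z' : List Bool, s.length = z.length ∧
      (g e).2.out A (pairBits (ones m) s) = some z' ∧ z'.take (E * Nat.log 2 m + 2) = y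

theorem length_ones (m : ℕ) : (ones m).length = m := List.length_replicate

/-- the bound for the number of strings -/
noncomputable def uG (g : ℕ → Alg × Alg) (E m : ℕ) : ℕ :=
  ∑ e ∈ range E, ((g e).1.p.eval m +
    2 ^ (E * Nat.log 2 m) * (g e).2.p.eval (2 * m + 1 + E * Nat.log 2 m))

/-- the family for generators; `g` enumerates the pairs of algorithms -/
noncomputable def famG (g : ℕ → Alg × Alg) : Fam where
  r E m := E * Nat.log 2 m + 2
  r_mono m h := Nat.add_le_add_right (Nat.mul_le_mul_right _ h) 2
  ℓ _ m := m - 2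
  Q E m e y A := QG g E m e y A
  u := uG g
  u_mono := by
    intro E E' m h
    unfold uG
    refine (sum_le_sum fun e _ => ?_).trans (sum_le_sum_of_subset (range_mono h))
    have h1 : E * Nat.log 2 m ≤ E' * Nat.log 2 m := Nat.mul_le_mul_right _ h
    exact Nat.add_le_add_left (Nat.mul_le_mul (Nat.pow_le_pow_right (by norm_num) h1)
      (eval_mono' _ (by omega))) _
  loc := by
    classical
    intro E m A
    choose U hU1 hU2 using fun (e : ℕ) =>
      run_local (g e).1 A (ones m) ((g e).1.p.eval (ones m).length) []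
    choose W hW1 hW2 using fun (e : ℕ) (s : List Bool) =>
      run_local (g e).2 A (pairBits (ones m) s) ((g e).2.p.eval (pairBits (ones m) s).length) []
    let K : ℕ → Finset (List Bool) := fun e =>
      if h : ∃ z, (g e).1.out A (ones m) = some z ∧ z.length ≤ E * Nat.log 2 m then
        keys h.choose.length else ∅
    refine ⟨(range E).biUnion fun e => U e ∪ (K e).biUnion fun s => W e s, ?_, ?_⟩
    · unfold uG
      refine card_biUnion_le.trans (sum_le_sum fun e _ => ?_)
      refine (card_union_le _ _).trans (Nat.add_le_add ?_ ?_)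
      · have h1 := hU1 e
        rwa [length_ones] at h1
      · refine card_biUnion_le.trans ?_
        by_cases h : ∃ z, (g e).1.out A (ones m) = some z ∧ z.length ≤ E * Nat.log 2 m
        · have hK : K e = keys h.choose.length := dif_pos h
          rw [hK]
          have hz := h.choose_spec.2
          have h1 : ∀ s ∈ keys h.choose.length, (W e s).card ≤
              (g e).2.p.eval (2 * m + 1 + E * Nat.log 2 m) := by
            intro s hs
            refine (hW1 e s).trans (eval_mono' _ ?_)
            rw [Pool.Agent.H620R2.Gauge.length_pairBits, length_ones, mem_keys.1 hs]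
            omega
          refine (sum_le_sum h1).trans ?_
          rw [sum_const, smul_eq_mul, card_keys]
          exact Nat.mul_le_mul_right _ (Nat.pow_le_pow_right (by norm_num) hz)
        · have hK : K e = ∅ := dif_neg h
          rw [hK, sum_empty]
          exact Nat.zero_le _
    · intro A' hA' e he y _
      have h1 : (g e).1.out A' (ones m) = (g e).1.out A (ones m) :=
        hU2 e A' fun x hx => hA' x (mem_biUnion.2 ⟨e, mem_range.2 he, mem_union_left _ hx⟩)
      have h2 : ∀ z, (g e).1.out A (ones m) = some z → z.length ≤ E * Nat.log 2 m →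
          ∀ s : List Bool, s.length = z.length →
            (g e).2.out A' (pairBits (ones m) s) = (g e).2.out A (pairBits (ones m) s) := by
        intro z hz hzl s hs
        have h : ∃ z, (g e).1.out A (ones m) = some z ∧ z.length ≤ E * Nat.log 2 m :=
          ⟨z, hz, hzl⟩
        have hK : K e = keys h.choose.length := dif_pos h
        have h3 : h.choose = z := by
          exact Option.some.inj (h.choose_spec.1.symm.trans hz)
        refine hW2 e s A' fun x hx => hA' x (mem_biUnion.2 ⟨e, mem_range.2 he,
          mem_union_right _ (mem_biUnion.2 ⟨s, ?_, hx⟩)⟩)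
        rw [hK, h3]
        exact mem_keys.2 hs
      show QG g E m e y A' ↔ QG g E m e y A
      unfold QG
      constructor
      · rintro ⟨z, hz, hzl, s, z', hs, hz', hy⟩
        rw [h1] at hz
        exact ⟨z, hz, hzl, s, z', hs, by rw [← h2 z hz hzl s hs]; exact hz', hy⟩
      · rintro ⟨z, hz, hzl, s, z', hs, hz', hy⟩
        exact ⟨z, by rw [h1]; exact hz, hzl, s, z', hs, by rw [h2 z hz hzl s hs]; exact hz', hy⟩

theorem pow_mul_log (E m : ℕ) : 2 ^ (E * Nat.log 2 m) ≤ (m + 1) ^ E := by
  rw [mul_comm, pow_mul]
  refine Nat.pow_le_pow_left ?_ _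
  rcases Nat.eq_zero_or_pos m with h | h
  · subst h
    simp
  · exact (Nat.pow_log_le_self 2 (by omega)).trans (Nat.le_succ _)

/-- a polynomial bound -/
noncomputable def uP (g : ℕ → Alg × Alg) (E : ℕ) : Polynomial ℕ :=
  ∑ e ∈ range E, ((g e).1.p + (Polynomial.X + 1) ^ E *
    (g e).2.p.comp (2 * Polynomial.X + 1 + Polynomial.C E * Polynomial.X))

theorem uG_le (g : ℕ → Alg × Alg) (E m : ℕ) : uG g E m ≤ (uP g E).eval m := by
  unfold uG uP
  rw [Polynomial.eval_finsetSum]
  refine sum_le_sum fun e _ => ?_
  simp only [Polynomial.eval_add, Polynomial.eval_mul, Polynomial.eval_pow, Polynomial.eval_X,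
    Polynomial.eval_one, Polynomial.eval_comp, Polynomial.eval_C, Polynomial.eval_ofNat]
  refine Nat.add_le_add_left (Nat.mul_le_mul (pow_mul_log E m) (eval_mono' _ ?_)) _
  have h1 : Nat.log 2 m ≤ m := Nat.log_le_self 2 m
  have := Nat.mul_le_mul_left E h1
  omega

theorem tot_le (g : ℕ → Alg × Alg) (E m : ℕ) :
    (famG g).tot E m ≤ ((Polynomial.X + 1) * uP g E).eval m := by
  unfold Fam.tot
  have h1 : ∀ i ∈ range (m + 1), (famG g).u E i ≤ (uP g E).eval m := fun i hi =>
    (uG_le g E i).trans (eval_mono' _ (Nat.lt_succ_iff.1 (mem_range.1 hi)))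
  refine (sum_le_sum h1).trans (le_of_eq ?_)
  rw [sum_const, card_range, smul_eq_mul]
  simp only [Polynomial.eval_add, Polynomial.eval_mul, Polynomial.eval_X, Polynomial.eval_one]

theorem famG_reg (g : ℕ → Alg × Alg) : (famG g).Reg where
  cheap := by
    intro E hE
    -- the cost is bounded by a polynomial
    set R : Polynomial ℕ := (Polynomial.X + 1) * (Polynomial.C (4 * E) * (Polynomial.X + 1) ^ E +
      ((Polynomial.X + 1) * uP g E + 1)) with hR
    obtain ⟨K, hK⟩ : ∃ K : ℕ, ∀ᶠ m : ℕ in atTop, R.eval m ≤ (m - 2) ^ K := by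
      refine ⟨2 * (R.natDegree + 1), ?_⟩
      filter_upwards [eventually_ge_atTop (R.eval 1 + 4)] with m hm
      have h1 : R.eval m ≤ R.eval 1 * m ^ R.natDegree := by
        rw [Polynomial.eval_eq_sum_range, Polynomial.eval_eq_sum_range, sum_mul]
        refine sum_le_sum fun i hi => ?_
        rw [one_pow, mul_one]
        refine Nat.mul_le_mul_left _ (Nat.pow_le_pow_right (by omega) ?_)
        exact Nat.lt_succ_iff.1 (mem_range.1 hi)
      refine h1.trans ?_
      have h2 : R.eval 1 * m ^ R.natDegree ≤ m ^ (R.natDegree + 1) := by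
        rw [pow_succ, mul_comm]
        exact Nat.mul_le_mul_left _ (by omega)
      refine h2.trans ?_
      rw [pow_mul]
      refine Nat.pow_le_pow_left ?_ _
      obtain ⟨j, rfl⟩ : ∃ j, m = j + 4 := ⟨m - 4, by omega⟩
      have e1 : j + 4 - 2 = j + 2 := by omega
      rw [e1]
      nlinarith
    refine ⟨K, ?_⟩
    have h1 := poly_le_two_pow_div ((Polynomial.X + 1) * uP g E) (E := 8) (by norm_num)
    have h2 := poly_le_two_pow_div ((Polynomial.X + 1) ^ E) (E := 8) (by norm_num)
    have h3 := poly_le_two_pow_div (Polynomial.X) (E := 8) (by norm_num)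
    filter_upwards [hK, h1, h2, h3, eventually_ge_atTop (2 * E + 20)] with m h4 h5 h6 h7 h8
    simp only [Polynomial.eval_X] at h7
    have hk : (famG g).k E m ≤ m / 8 + 1 := by
      unfold Fam.k
      refine Nat.succ_le_succ ?_
      have h9 : (famG g).tot E m ≤ 2 ^ (m / 8) := (tot_le g E m).trans (by omega)
      exact (Nat.log_mono_right h9).trans (le_of_eq (Nat.log_pow (by norm_num) _))
    have hr : E * Nat.log 2 m ≤ m / 8 := by
      have h9 : 2 ^ (E * Nat.log 2 m) ≤ 2 ^ (m / 8) := by
        refine (pow_mul_log E m).trans ?_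
        simp only [Polynomial.eval_pow, Polynomial.eval_add, Polynomial.eval_X,
          Polynomial.eval_one] at h6
        omega
      exact (Nat.pow_le_pow_iff_right (by norm_num)).1 h9
    have hb : (Nat.bits m).length ≤ m / 8 := by
      rw [Nat.size_eq_bits_len]
      exact Nat.size_le.2 (by omega)
    refine ⟨⟨?_, ?_⟩, ?_⟩
    · show 2 * (Nat.bits m).length + 1 + (famG g).k E m + E + 1 + (E * Nat.log 2 m + 2) ≤ m - 2
      omega
    · show m ≤ m - 2 + 2
      omega
    · show (famG g).cost E m ≤ (m - 2) ^ K
      refine le_trans ?_ h4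
      have h9 : ∀ i ∈ range (m + 1), E * 2 ^ (famG g).r E i + (famG g).k E i ≤
          4 * E * (m + 1) ^ E + (((Polynomial.X + 1) * uP g E).eval m + 1) := by
        intro i hi
        have hi' : i ≤ m := Nat.lt_succ_iff.1 (mem_range.1 hi)
        have h10 : 2 ^ (famG g).r E i ≤ 4 * (m + 1) ^ E := by
          show 2 ^ (E * Nat.log 2 i + 2) ≤ _
          rw [pow_add, mul_comm]
          refine Nat.mul_le_mul (by norm_num) ((pow_mul_log E i).trans
            (Nat.pow_le_pow_left (by omega) _))
        have h11 : (famG g).k E i ≤ ((Polynomial.X + 1) * uP g E).eval m + 1 := by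
          unfold Fam.k
          refine Nat.succ_le_succ ((Nat.log_le_self 2 _).trans ((tot_le g E i).trans ?_))
          exact eval_mono' _ hi'
        have h12 := Nat.mul_le_mul_left E h10
        nlinarith
      unfold Fam.cost
      refine (sum_le_sum h9).trans (le_of_eq ?_)
      rw [sum_const, card_range, smul_eq_mul, hR]
      simp only [Polynomial.eval_add, Polynomial.eval_mul, Polynomial.eval_pow, Polynomial.eval_X,
        Polynomial.eval_one, Polynomial.eval_C]
  dense := by
    intro E _
    filter_upwards with l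
    exact ⟨l + 2, by show l ≤ l + 2 - 2; omega, by show l + 2 - 2 ≤ 2 * l; omega⟩
  up := by
    intro E _
    exact tendsto_sub_atTop_nat 2

end Pool.Agent.TH707.EC
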