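import Pool.Agent.TH707.EC.AsyE
import Pool.Agent.TH707.EC.EasyE

/-!
# Exponential time and circuits of exponential size, relative to oracles
-/

set_option autoImplicit false

namespace Pool.Agent.TH707.EC

open Pool.Agent.NPC Pool.Agent.H620R2.Gauge Finset MeasureTheory Filter
open Pool.Agent.H622R2.Exp (InTime Lin Pol)
open Pool.Agent.H622R2.Ckt
open Pool.Agent.W900.CH (Close)
open Pool.Agent.H628R3.RO (randomOracle)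

theorem inTime_pol {A : Oracle} {L : Set (List Bool)} (h : InTime Lin A L) : InTime Pol A L := by
  obtain ⟨M, q, -, hM⟩ := h
  exact ⟨M, q, Set.mem_univ _, hM⟩

theorem gaugeE (f : ℕ → ℝ) :
    (∀ S : Set Oracle,
      (∀ A : Oracle, (∀ L, InTime Pol A L → ∀ ε : ℝ, 0 < ε →
        ∃ᶠ n : ℕ in atTop, Small A L (2 ^ (ε * n)) n) → A ∈ S) →
      (∀ A ∈ S, ¬ ∃ L, InTime Lin A L ∧ ∃ ε : ℝ, 0 < ε ∧
        ∀ᶠ n : ℕ in atTop, ¬ Small A L (2 ^ (ε * n)) n) →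
      (Null f S ↔ ∃ k : ℕ, ∀ᶠ l : ℕ in atTop, ∃ N : ℕ, 2 ^ l ≤ N ∧ f N ≤ (l : ℝ) ^ k)) ∧
    (∀ S : Set Oracle,
      (∀ A : Oracle, (∀ L, InTime Pol A L → ∀ ε : ℝ, 0 < ε →
        ∀ᶠ n : ℕ in atTop, Small A L (2 ^ (ε * n)) n) → A ∈ S) →
      (∀ A ∈ S, ¬ ∃ L, InTime Lin A L ∧ ∃ ε : ℝ, 0 < ε ∧
        ∃ᶠ n : ℕ in atTop, ¬ Small A L (2 ^ (ε * n)) n) →
      (Null f S ↔ ∃ k : ℕ, ∃ᶠ N : ℕ in atTop, f N ≤ (Real.logb 2 N) ^ k)) := by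
  refine ⟨fun S h1 h2 => ⟨fun hn => ?_, fun hf => ?_⟩, fun S h1 h2 => ⟨fun hn => ?_, fun hf => ?_⟩⟩
  · by_contra hc
    exact easy_main.1 f hc (hn.mono fun A hA => h1 A hA)
  · exact (nullA hf).mono h2
  · by_contra hc
    exact easy_main.2.1 f hc (hn.mono fun A hA => h1 A hA)
  · exact (nullB hf).mono h2

theorem changedE (g : ℕ → ℝ) :
    ((∃ k : ℕ, ∀ᶠ n : ℕ in atTop, ∃ m : ℕ, n ≤ m ∧ g m ≤ (n : ℝ) ^ k) →
      ∀ᵐ O ∂randomOracle, ∀ A : Oracle, Close g O A →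
        ∃ L, InTime Lin A L ∧ ∃ ε : ℝ, 0 < ε ∧
          ∀ᶠ n : ℕ in atTop, ¬ Small A L (2 ^ (ε * n)) n) ∧
    ((¬ ∃ k : ℕ, ∀ᶠ n : ℕ in atTop, ∃ m : ℕ, n ≤ m ∧ g m ≤ (n : ℝ) ^ k) →
      ∀ O : Oracle, ∃ A : Oracle, Close g O A ∧
        ∀ L, InTime Pol A L → ∀ ε : ℝ, 0 < ε →
          ∃ᶠ n : ℕ in atTop, Small A L (2 ^ (ε * n)) n) ∧
    ((∃ k : ℕ, ∃ᶠ n : ℕ in atTop, g n ≤ (n : ℝ) ^ k) →
      ∀ᵐ O ∂randomOracle, ∀ A : Oracle, Close g O A →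
        ∃ L, InTime Lin A L ∧ ∃ ε : ℝ, 0 < ε ∧
          ∃ᶠ n : ℕ in atTop, ¬ Small A L (2 ^ (ε * n)) n) ∧
    ((¬ ∃ k : ℕ, ∃ᶠ n : ℕ in atTop, g n ≤ (n : ℝ) ^ k) →
      ∀ O : Oracle, ∃ A : Oracle, Close g O A ∧
        ∀ L, InTime Pol A L → ∀ ε : ℝ, 0 < ε →
          ∀ᶠ n : ℕ in atTop, Small A L (2 ^ (ε * n)) n) := by
  refine ⟨fun hg => ?_, fun hg O => ?_, fun hg => ?_, fun hg O => ?_⟩
  · filter_upwards [ae_far_A (fun f hf => nullA hf) hg] with O hO A hA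
    have h := hO A hA
    unfold notHardAE at h
    rw [Set.mem_ofPred_eq, not_not] at h
    exact h
  · obtain ⟨A, h1, h2⟩ := easy_main.2.2.1 g hg O
    exact ⟨A, h1, h2⟩
  · filter_upwards [ae_far_B (fun f hf => nullB hf) hg] with O hO A hA
    have h := hO A hA
    unfold notHardIO at h
    rw [Set.mem_ofPred_eq, not_not] at h
    exact h
  · obtain ⟨A, h1, h2⟩ := easy_main.2.2.2 g hg O
    exact ⟨A, h1, h2⟩

end Pool.Agent.TH707.EC
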