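import Pool.Agent.TH707.EC.EasyG

/-!
# Logarithmic-seed generators relative to oracles
-/

set_option autoImplicit false

namespace Pool.Agent.TH707.EC

open Pool.Agent.NPC Pool.Agent.H620R2.Gauge Finset MeasureTheory Filter
open Pool.Agent.W900.CH (Close)
open Pool.Agent.H628R3.RO (randomOracle)

theorem gaugeG (f : ℕ → ℝ) :
    (Null f {A : Oracle | ¬ HasGenerator A} ↔
      ∃ k : ℕ, ∀ᶠ l : ℕ in atTop, ∃ N : ℕ, 2 ^ l ≤ N ∧ f N ≤ (l : ℝ) ^ k) ∧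
    (Null f {A : Oracle | ¬ HasGeneratorIO A} ↔
      ∃ k : ℕ, ∃ᶠ N : ℕ in atTop, f N ≤ (Real.logb 2 N) ^ k) := by
  refine ⟨⟨fun hn => ?_, fun hf => nullGA hf⟩, ⟨fun hn => ?_, fun hf => nullGB hf⟩⟩
  · by_contra hc
    exact easyG_main.1 f hc hn
  · by_contra hc
    exact easyG_main.2.1 f hc hn

theorem changedG (g : ℕ → ℝ) :
    ((∃ k : ℕ, ∀ᶠ n : ℕ in atTop, ∃ m : ℕ, n ≤ m ∧ g m ≤ (n : ℝ) ^ k) →
      ∀ᵐ O ∂randomOracle, ∀ A : Oracle, Close g O A → HasGenerator A) ∧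
    ((¬ ∃ k : ℕ, ∀ᶠ n : ℕ in atTop, ∃ m : ℕ, n ≤ m ∧ g m ≤ (n : ℝ) ^ k) →
      ∀ O : Oracle, ∃ A : Oracle, Close g O A ∧ ¬ HasGenerator A) ∧
    ((∃ k : ℕ, ∃ᶠ n : ℕ in atTop, g n ≤ (n : ℝ) ^ k) →
      ∀ᵐ O ∂randomOracle, ∀ A : Oracle, Close g O A → HasGeneratorIO A) ∧
    ((¬ ∃ k : ℕ, ∃ᶠ n : ℕ in atTop, g n ≤ (n : ℝ) ^ k) →
      ∀ O : Oracle, ∃ A : Oracle, Close g O A ∧ ¬ HasGeneratorIO A) := by
  refine ⟨fun hg => ?_, fun hg O => ?_, fun hg => ?_, fun hg O => ?_⟩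
  · filter_upwards [ae_far_A (fun f hf => nullGA hf) hg] with O hO A hA
    by_contra h
    exact hO A hA h
  · exact easyG_main.2.2.1 g hg O
  · filter_upwards [ae_far_B (fun f hf => nullGB hf) hg] with O hO A hA
    by_contra h
    exact hO A hA h
  · exact easyG_main.2.2.2 g hg O

end Pool.Agent.TH707.EC
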