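import Pool.Agent.TH707.EC.Fam

/-!
# Good scales
-/

set_option autoImplicit false

namespace Pool.Agent.TH707.EC

open Pool.Agent.NPC Pool.Agent.H620R2.Gauge Finset MeasureTheory Filter

/-- For some `k` and all large `ℓ`, `f N ≤ ℓ ^ k` for some `N ≥ 2 ^ ℓ`. -/
def CondA (f : ℕ → ℝ) : Prop :=
  ∃ k : ℕ, ∀ᶠ l : ℕ in atTop, ∃ N : ℕ, 2 ^ l ≤ N ∧ f N ≤ (l : ℝ) ^ k

/-- For some `k`, `f N ≤ (log N) ^ k` for infinitely many `N`. -/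
def CondB (f : ℕ → ℝ) : Prop :=
  ∃ k : ℕ, ∃ᶠ N : ℕ in atTop, f N ≤ (Real.logb 2 N) ^ k

/-- For some `k` and all large `n`, `g m ≤ n ^ k` for some `m ≥ n`. -/
def PolyA (g : ℕ → ℝ) : Prop :=
  ∃ k : ℕ, ∀ᶠ n : ℕ in atTop, ∃ m : ℕ, n ≤ m ∧ g m ≤ (n : ℝ) ^ k

/-- For some `k`, `g n ≤ n ^ k` for infinitely many `n`. -/
def PolyB (g : ℕ → ℝ) : Prop :=
  ∃ k : ℕ, ∃ᶠ n : ℕ in atTop, g n ≤ (n : ℝ) ^ k

/-- The family of jobs has reasonable parameters. -/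
structure Fam.Reg (F : Fam) : Prop where
  cheap : ∀ E : ℕ, 1 ≤ E → ∃ K : ℕ, ∀ᶠ n : ℕ in atTop, F.Len E n ∧ F.cost E n ≤ (F.ℓ E n) ^ K
  dense : ∀ E : ℕ, 1 ≤ E → ∀ᶠ l : ℕ in atTop, ∃ n : ℕ, l ≤ F.ℓ E n ∧ F.ℓ E n ≤ 2 * l
  up : ∀ E : ℕ, 1 ≤ E → Tendsto (F.ℓ E) atTop atTop

theorem Fam.Reg.goodA_aux {F : Fam} (hF : F.Reg) {f : ℕ → ℝ}
    (hf : ∀ K : ℕ, ∃ᶠ l : ℕ in atTop, ∀ N : ℕ, 2 ^ l ≤ N → (l : ℝ) ^ K < f N)
    (E : ℕ) (hE : 1 ≤ E) : ∃ᶠ n : ℕ in atTop, F.Good f E n := by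
  obtain ⟨K, hK⟩ := hF.cheap E hE
  obtain ⟨n₁, hn₁⟩ := eventually_atTop.1 hK
  rw [frequently_atTop]
  intro n₀
  -- the lengths below the bound
  obtain ⟨b, hb⟩ : ∃ b : ℕ, ∀ n < max n₀ n₁, F.ℓ E n < b := by
    refine ⟨∑ n ∈ range (max n₀ n₁), F.ℓ E n + 1, fun n hn => Nat.lt_succ_of_le ?_⟩
    exact single_le_sum (f := fun n => F.ℓ E n) (fun _ _ => Nat.zero_le _) (mem_range.2 hn)
  obtain ⟨l, h1, h2, h3⟩ := ((hf (2 * K)).and_eventually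
    ((hF.dense E hE).and (eventually_ge_atTop (max b 2)))).exists
  obtain ⟨n, h4, h5⟩ := h2
  have hbl : b ≤ l := (le_max_left _ _).trans h3
  have h2l : 2 ≤ l := (le_max_right _ _).trans h3
  have hn : max n₀ n₁ ≤ n := by
    by_contra hc
    have := hb n (not_le.1 hc)
    omega
  obtain ⟨h6, h7⟩ := hn₁ n ((le_max_right _ _).trans hn)
  refine ⟨n, (le_max_left _ _).trans hn, h6, fun N hN => ?_⟩
  have h8 := h1 N ((Nat.pow_le_pow_right (by norm_num) h4).trans hN)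
  refine le_trans ?_ h8.le
  have h9 : F.cost E n ≤ l ^ (2 * K) := by
    refine h7.trans ((Nat.pow_le_pow_left h5 K).trans ?_)
    rw [pow_mul]
    exact Nat.pow_le_pow_left (by nlinarith) K
  exact_mod_cast h9

theorem Fam.Reg.goodB_aux {F : Fam} (hF : F.Reg) {f : ℕ → ℝ}
    (hf : ∀ K : ℕ, ∀ᶠ l : ℕ in atTop, ∀ N : ℕ, 2 ^ l ≤ N → (l : ℝ) ^ K < f N)
    (E : ℕ) (hE : 1 ≤ E) : ∀ᶠ n : ℕ in atTop, F.Good f E n := by
  obtain ⟨K, hK⟩ := hF.cheap E hE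
  filter_upwards [hK, (hF.up E hE).eventually (hf K)] with n h1 h2
  refine ⟨h1.1, fun N hN => le_trans ?_ (h2 N hN).le⟩
  exact_mod_cast h1.2

theorem Fam.Reg.goodA {F : Fam} (hF : F.Reg) {f : ℕ → ℝ} (hf : ¬ CondA f)
    (E : ℕ) (hE : 1 ≤ E) : ∃ᶠ n : ℕ in atTop, F.Good f E n := by
  refine hF.goodA_aux (fun K => ?_) E hE
  unfold CondA at hf
  push Not at hf
  exact hf K

theorem Fam.Reg.goodB {F : Fam} (hF : F.Reg) {f : ℕ → ℝ} (hf : ¬ CondB f)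
    (E : ℕ) (hE : 1 ≤ E) : ∀ᶠ n : ℕ in atTop, F.Good f E n := by
  refine hF.goodB_aux (fun K => ?_) E hE
  unfold CondB at hf
  push Not at hf
  obtain ⟨N₀, hN₀⟩ := eventually_atTop.1 (hf K)
  filter_upwards [eventually_ge_atTop N₀] with l hl N hN
  have h1 : l < 2 ^ l := Nat.lt_two_pow_self
  refine lt_of_le_of_lt ?_ (hN₀ N (by omega))
  have h2 : (l : ℝ) ≤ Real.logb 2 N := by
    rw [Real.le_logb_iff_rpow_le (by norm_num)]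
    · rw [Real.rpow_natCast]
      exact_mod_cast hN
    · have : 0 < 2 ^ l := by positivity
      exact_mod_cast lt_of_lt_of_le this hN
  exact pow_le_pow_left₀ (Nat.cast_nonneg _) h2 K

theorem Fam.Reg.goodPA {F : Fam} (hF : F.Reg) {g : ℕ → ℝ} (hg : ¬ PolyA g)
    (E : ℕ) (hE : 1 ≤ E) : ∃ᶠ n : ℕ in atTop, F.Good (fun N => g (Nat.log 2 N)) E n := by
  refine hF.goodA_aux (fun K => ?_) E hE
  unfold PolyA at hg
  push Not at hg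
  refine (hg K).mono fun l hl N hN => hl _ ?_
  exact Nat.le_log_of_pow_le (by norm_num) hN

theorem Fam.Reg.goodPB {F : Fam} (hF : F.Reg) {g : ℕ → ℝ} (hg : ¬ PolyB g)
    (E : ℕ) (hE : 1 ≤ E) : ∀ᶠ n : ℕ in atTop, F.Good (fun N => g (Nat.log 2 N)) E n := by
  refine hF.goodB_aux (fun K => ?_) E hE
  unfold PolyB at hg
  push Not at hg
  obtain ⟨n₀, hn₀⟩ := eventually_atTop.1 (hg K)
  filter_upwards [eventually_ge_atTop n₀] with l hl N hN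
  have h1 : l ≤ Nat.log 2 N := Nat.le_log_of_pow_le (by norm_num) hN
  refine lt_of_le_of_lt ?_ (hn₀ (Nat.log 2 N) (by omega))
  exact pow_le_pow_left₀ (Nat.cast_nonneg _) (by exact_mod_cast h1) K

theorem Fam.coded (F : Fam) {ν μ : ℕ → ℕ} (hν : StrictMono ν) (h2 : 2 ≤ ν 0) (hμ : Monotone μ)
    (hlen : ∀ t, F.Len (μ t) (ν t)) (B : Oracle) :
    ∀ t, ∀ e < μ t, ∃ (v : List Bool) (c : ℕ),
      v.length + F.r (μ t) (ν t) + c = F.ℓ (μ t) (ν t) ∧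
      ∀ x : List Bool, x.length = F.r (μ t) (ν t) →
        ((F.toJobs ν μ hν h2 hμ hlen).fin B (v ++ x ++ List.replicate c false) = true ↔
          F.Q (μ t) (ν t) e x ((F.toJobs ν μ hν h2 hμ hlen).fin B)) := by
  intro t e he
  set J := F.toJobs ν μ hν h2 hμ hlen with hJ
  obtain ⟨h1, h3, -⟩ := J.coding B
  refine ⟨J.pfx t (J.kw B t) e, J.pad t e, ?_, fun x hx => h3 t e he x hx⟩
  rw [J.length_pfx t _ (h1 t)]
  have h4 := J.len t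
  have h5 : e < J.M t := he
  show _ + J.r t + _ = J.ℓ t
  unfold Jobs.pad
  omega

/-- The general theorem: the exceptional set is not null, and near every oracle. -/
theorem Fam.Reg.main {F : Fam} (hF : F.Reg) (S T : Set Oracle)
    (hS : ∀ (A : Oracle) (ν μ : ℕ → ℕ), StrictMono ν → Tendsto μ atTop atTop → (∀ t, 1 ≤ μ t) →
      (∀ t, F.Len (μ t) (ν t)) → (∀ t, ∀ e < μ t, ∃ (v : List Bool) (c : ℕ), v.length + F.r (μ t) (ν t) + c = F.ℓ (μ t) (ν t) ∧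
        ∀ x : List Bool, x.length = F.r (μ t) (ν t) →
          (A (v ++ x ++ List.replicate c false) = true ↔ F.Q (μ t) (ν t) e x A)) → A ∈ S)
    (hT : ∀ (A : Oracle) (n₀ : ℕ) (μ : ℕ → ℕ), Tendsto μ atTop atTop → (∀ t, 1 ≤ μ t) →
      (∀ t, F.Len (μ t) (n₀ + t)) → (∀ t, ∀ e < μ t, ∃ (v : List Bool) (c : ℕ),
        v.length + F.r (μ t) (n₀ + t) + c = F.ℓ (μ t) (n₀ + t) ∧
        ∀ x : List Bool, x.length = F.r (μ t) (n₀ + t) →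
          (A (v ++ x ++ List.replicate c false) = true ↔ F.Q (μ t) (n₀ + t) e x A)) → A ∈ T) :
    (∀ f : ℕ → ℝ, ¬ CondA f → ¬ Null f S) ∧ (∀ f : ℕ → ℝ, ¬ CondB f → ¬ Null f T) ∧
    (∀ g : ℕ → ℝ, ¬ PolyA g → ∀ O : Oracle, ∃ A : Oracle,
      Pool.Agent.W900.CH.Close g O A ∧ A ∈ S) ∧
    (∀ g : ℕ → ℝ, ¬ PolyB g → ∀ O : Oracle, ∃ A : Oracle,
      Pool.Agent.W900.CH.Close g O A ∧ A ∈ T) := by
  have hadd : ∀ n₀ : ℕ, StrictMono (fun t => n₀ + t) := fun n₀ a b h => Nat.add_lt_add_left h n₀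
  refine ⟨fun f hf => ?_, fun f hf => ?_, fun g hg O => ?_, fun g hg O => ?_⟩
  · obtain ⟨ν, μ, h1, h2, h3, h4, h5, h6⟩ := seqA (hF.goodA hf)
    refine Fam.not_null (hν := h1) (h2 := h2) (hμ := h3) (hlen := fun t => (h6 t).1) h6 S
      fun B => ?_
    exact hS _ ν μ h1 h4 h5 (fun t => (h6 t).1) (F.coded h1 h2 h3 (fun t => (h6 t).1) B)
  · obtain ⟨n₀, μ, h2, h3, h4, h5, h6⟩ := seqB (hF.goodB hf)
    refine Fam.not_null (ν := fun t => n₀ + t) (hν := hadd n₀) (h2 := h2) (hμ := h3)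
      (hlen := fun t => (h6 t).1) h6 T fun B => ?_
    exact hT _ n₀ μ h4 h5 (fun t => (h6 t).1) (F.coded (hadd n₀) h2 h3 (fun t => (h6 t).1) B)
  · obtain ⟨ν, μ, h1, h2, h3, h4, h5, h6⟩ := seqA (hF.goodPA hg)
    refine ⟨_, Fam.close (hν := h1) (h2 := h2) (hμ := h3) (hlen := fun t => (h6 t).1) h6 O, ?_⟩
    exact hS _ ν μ h1 h4 h5 (fun t => (h6 t).1) (F.coded h1 h2 h3 (fun t => (h6 t).1) O)
  · obtain ⟨n₀, μ, h2, h3, h4, h5, h6⟩ := seqB (hF.goodPB hg)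
    refine ⟨_, Fam.close (ν := fun t => n₀ + t) (hν := hadd n₀) (h2 := h2) (hμ := h3)
      (hlen := fun t => (h6 t).1) h6 O, ?_⟩
    exact hT _ n₀ μ h4 h5 (fun t => (h6 t).1) (F.coded (hadd n₀) h2 h3 (fun t => (h6 t).1) O)

end Pool.Agent.TH707.EC
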