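import Pool.Agent.TH707.EC.NullG

/-!
# The oracle generator is computable in polynomial time
-/

set_option autoImplicit false

namespace Pool.Agent.TH707.EC

open Pool.Agent.NPC Pool.Agent.H620R2.Gauge Finset

namespace LangG

theorem poly_rep {α : Type} [TEnc α] {n : α → ℕ} (hn : UPoly n) (b : Bool) :
    NPC.Poly (fun a => List.replicate (n a) b) :=
  (NPC.Poly.map (F := fun _ _ => b) hn (NPC.Poly.const b)).congr fun a => by simp

/-- the seed length, in unary -/
def gD (c : ℕ) (x : List Bool) : List Bool :=
  List.replicate (c * (Nat.bits x.length).length) true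

/-- the questions -/
def gQ (x : List Bool) : List (List Bool) :=
  (List.range (unpair x).1.length).map fun j => (unpair x).2 ++
    (List.replicate (min j (unpair x).1.length) true ++
      List.replicate (2 * (unpair x).1.length - min j (unpair x).1.length) false)

theorem poly_gD (c : ℕ) : NPC.Poly (gD c) :=
  poly_rep ((UPoly.const c).mul (UPoly.length (NPC.Poly.natBits
    (UPoly.length NPC.Poly.id).toPoly))) true

theorem poly_gQ : NPC.Poly gQ := by
  have h1 : UPoly (fun x : List Bool => (unpair x).1.length) :=
    UPoly.length (NPC.Poly.fst poly_unpair)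
  have hm : UPoly (fun p : List Bool × ℕ => (unpair p.1).1.length) :=
    UPoly.length (NPC.Poly.fst (poly_unpair.comp (NPC.Poly.fst NPC.Poly.id)))
  have hj : NPC.Poly (fun p : List Bool × ℕ => p.2) := NPC.Poly.snd NPC.Poly.id
  have hmin : UPoly (fun p : List Bool × ℕ => min p.2 (unpair p.1).1.length) :=
    UPoly.of_le (NPC.Poly.min hj hm.toPoly) hm fun p => min_le_right _ _
  have h2m : UPoly (fun p : List Bool × ℕ => 2 * (unpair p.1).1.length) :=
    (UPoly.const 2).mul hm
  have hsub : UPoly (fun p : List Bool × ℕ => 2 * (unpair p.1).1.length -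
      min p.2 (unpair p.1).1.length) :=
    UPoly.of_le (NPC.Poly.sub h2m.toPoly hmin.toPoly) h2m fun p => Nat.sub_le _ _
  refine NPC.Poly.map (F := fun (x : List Bool) (j : ℕ) => (unpair x).2 ++
    (List.replicate (min j (unpair x).1.length) true ++
      List.replicate (2 * (unpair x).1.length - min j (unpair x).1.length) false)) h1.range ?_
  exact NPC.Poly.append (NPC.Poly.snd (poly_unpair.comp (NPC.Poly.fst NPC.Poly.id)))
    (NPC.Poly.append (poly_rep hmin true) (poly_rep hsub false))

theorem isFP_gD (A : Oracle) (c : ℕ) : IsFP A (gD c) := IsFP.of_poly (poly_gD c)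

theorem isFP_gG (A : Oracle) : IsFP A (fun x => (gQ x).map A) :=
  IsFP.tt (H := fun p => p.2) poly_gQ (NPC.Poly.snd NPC.Poly.id)

theorem gG_eq (A : Oracle) (m : ℕ) (s : List Bool) :
    (gQ (pairBits (ones m) s)).map A = gen A m s := by
  unfold gQ gen
  rw [unpair_pairBits, List.map_map]
  have h1 : (ones m).length = m := by simp [ones]
  simp only [h1]
  apply List.map_congr_left
  intro j hj
  rw [List.mem_range] at hj
  simp only [Function.comp_apply, qu, min_eq_left hj.le]

end LangG

end Pool.Agent.TH707.EC
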