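import Pool.Agent.TH707.EC.Code
import Pool.Agent.W900.CH.PLev
import Pool.Agent.H620R2.GaugeR.R8

/-!
# The cost of the coding
-/

set_option autoImplicit false

namespace Pool.Agent.TH707.EC

open Pool.Agent.NPC Pool.Agent.H620R2.Gauge Finset MeasureTheory
open Pool.Agent.W900.CH (Close)

variable (J : Jobs)

open Classical in
/-- the possible code strings of job `t` with key `w` -/
noncomputable def Jobs.cds (t : ℕ) (w : List Bool) : Finset (List Bool) :=
  (range (J.M t) ×ˢ keys (J.r t)).image (fun p => J.cd t w p.1 p.2)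

theorem Jobs.mem_cds {t : ℕ} {w y : List Bool} :
    y ∈ J.cds t w ↔ ∃ e < J.M t, ∃ x : List Bool, x.length = J.r t ∧ y = J.cd t w e x := by
  unfold Jobs.cds
  rw [mem_image]
  constructor
  · rintro ⟨⟨e, x⟩, h, rfl⟩
    rw [mem_product, mem_range, mem_keys] at h
    exact ⟨e, h.1, x, h.2, rfl⟩
  · rintro ⟨e, he, x, hx, rfl⟩
    exact ⟨(e, x), mem_product.2 ⟨mem_range.2 he, mem_keys.2 hx⟩, rfl⟩

theorem Jobs.card_cds (t : ℕ) (w : List Bool) : (J.cds t w).card ≤ J.M t * 2 ^ J.r t := by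
  unfold Jobs.cds
  refine card_image_le.trans (le_of_eq ?_)
  rw [card_product, card_range, card_keys]

/-- the jobs with code strings of length at most `n` -/
noncomputable def Jobs.jobs (n : ℕ) : Finset ℕ := (range (n + 1)).filter (fun t => J.ℓ t ≤ n)

theorem Jobs.mem_jobs {n t : ℕ} : t ∈ J.jobs n ↔ J.ℓ t ≤ n := by
  unfold Jobs.jobs
  rw [mem_filter, mem_range]
  have := J.le t
  omega

theorem Jobs.dist_le (B : Oracle) (n : ℕ) :
    Pool.Agent.W900.CH.dist B (J.fin B) n ≤ ∑ t ∈ J.jobs n, J.M t * 2 ^ J.r t := by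
  classical
  obtain ⟨h1, -, h3⟩ := J.coding B
  have h4 : {x : List Bool | x.length ≤ n ∧ J.fin B x ≠ B x} ⊆
      (((J.jobs n).biUnion fun t => J.cds t (J.kw B t) : Finset (List Bool)) :
        Set (List Bool)) := by
    rintro y ⟨hy, hne⟩
    by_contra hcon
    refine hne (h3 y fun t e he x hx h => hcon ?_)
    rw [mem_coe, mem_biUnion]
    refine ⟨t, ?_, J.mem_cds.2 ⟨e, he, x, hx, h⟩⟩
    rw [J.mem_jobs]
    rw [h, J.length_cd (h1 t) he hx] at hy
    exact hy
  unfold Pool.Agent.W900.CH.dist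
  refine (Set.ncard_le_ncard h4 (Finset.finite_toSet _)).trans ?_
  rw [Set.ncard_coe_finset]
  refine card_biUnion_le.trans (sum_le_sum fun t _ => J.card_cds t _)

open Classical in
/-- the family with fixed keys -/
noncomputable def Jobs.phi (n : ℕ) (v : ∀ t ∈ J.jobs n, List Bool) (B : Oracle) : Oracle :=
  fun y => if ∃ (t : ℕ) (h : t ∈ J.jobs n), y ∈ J.cds t (v t h) then J.fin B y else B y

open Classical in
theorem Jobs.ranO_le (σ : List Bool) :
    ranO {B | Extends (J.fin B) σ} ≤ ENNReal.ofReal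
      (2 ^ (((∑ t ∈ J.jobs (Nat.log 2 σ.length), (J.M t * 2 ^ J.r t + J.k t) : ℕ) : ℝ) -
        (σ.length : ℝ))) := by
  set N := σ.length with hN
  set n := Nat.log 2 N with hn
  set V := (J.jobs n).pi (fun t => keys (J.k t)) with hV
  have hsub : {B | Extends (J.fin B) σ} ⊆ ⋃ v ∈ V, {B | Extends (J.phi n v B) σ} := by
    intro B hB
    simp only [Set.mem_iUnion]
    refine ⟨fun t _ => J.kw B t, ?_, ?_⟩
    · rw [hV, mem_pi]
      intro t _
      exact mem_keys.2 ((J.coding B).1 t)
    · intro i hi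
      have h1 := hB i hi
      rw [← h1]
      unfold Jobs.phi
      split_ifs with h
      · rfl
      · refine ((J.coding B).2.2 (str i) fun t e he x hx hc => h ?_).symm
        refine ⟨t, ?_, J.mem_cds.2 ⟨e, he, x, hx, hc⟩⟩
        rw [J.mem_jobs]
        have h2 := congrArg List.length hc
        rw [J.length_cd ((J.coding B).1 t) he hx] at h2
        rw [← h2]
        exact Pool.Agent.W900.CH.length_str_le_log (by rw [hN]; exact hi)
  refine (measure_mono hsub).trans ((measure_biUnion_finset_le _ _).trans ?_)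
  set c1 := ∑ t ∈ J.jobs n, J.M t * 2 ^ J.r t with hc1
  have h1 : ∀ v ∈ V, ranO {B | Extends (J.phi n v B) σ} ≤
      ENNReal.ofReal (2 ^ ((c1 : ℝ) - (N : ℝ))) := by
    intro v _
    set T : Set (List Bool) := {y | ∃ (t : ℕ) (h : t ∈ J.jobs n), y ∈ J.cds t (v t h)} with hT
    refine (ranO_extends (J.phi n v) T (fun B y hy => ?_) σ).trans ?_
    · unfold Jobs.phi
      exact if_neg hy
    · apply ENNReal.ofReal_le_ofReal
      apply Real.rpow_le_rpow_of_exponent_le (by norm_num)
      have h2 : ((range σ.length).filter (fun i => str i ∈ T)).card ≤ c1 := by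
        have h3 : ((range σ.length).filter (fun i => str i ∈ T)).card ≤
            ((J.jobs n).attach.biUnion fun t => J.cds t.1 (v t.1 t.2)).card := by
          refine card_le_card_of_injOn str ?_ str_injective.injOn
          intro i hi
          rw [mem_coe, mem_filter] at hi
          obtain ⟨-, t, ht, h4⟩ := hi
          rw [mem_coe, mem_biUnion]
          exact ⟨⟨t, ht⟩, mem_attach _ _, h4⟩
        refine h3.trans (card_biUnion_le.trans ?_)
        rw [hc1, ← sum_attach (J.jobs n)]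
        exact sum_le_sum fun t _ => J.card_cds _ _
      have h3 : (((range σ.length).filter (fun i => str i ∈ T)).card : ℝ) ≤ c1 := by
        exact_mod_cast h2
      refine sub_le_sub (le_trans (le_of_eq ?_) h3) le_rfl
      congr!
  refine (sum_le_sum h1).trans ?_
  rw [sum_const, nsmul_eq_mul, hV, card_pi]
  have h2 : ∏ t ∈ J.jobs n, (keys (J.k t)).card = 2 ^ ∑ t ∈ J.jobs n, J.k t := by
    rw [← prod_pow_eq_pow_sum]
    exact prod_congr rfl fun t _ => card_keys _
  rw [h2]
  have h3 : (((2 ^ ∑ t ∈ J.jobs n, J.k t : ℕ) : ENNReal)) =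
      ENNReal.ofReal (2 ^ (((∑ t ∈ J.jobs n, J.k t : ℕ) : ℝ))) := by
    rw [Real.rpow_natCast, ENNReal.ofReal_pow (by norm_num)]
    simp
  rw [h3, ← ENNReal.ofReal_mul (by positivity), ← Real.rpow_add (by norm_num)]
  apply ENNReal.ofReal_le_ofReal
  apply Real.rpow_le_rpow_of_exponent_le (by norm_num)
  rw [sum_add_distrib, hc1]
  push_cast
  linarith

theorem Jobs.not_null (f : ℕ → ℝ) (d : ℝ)
    (hc : ∀ N : ℕ, 1 ≤ N → ((∑ t ∈ J.jobs (Nat.log 2 N), (J.M t * 2 ^ J.r t + J.k t) : ℕ) : ℝ) ≤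
      f N + d) (hd0 : 0 ≤ f 0 + d)
    (O : Set Oracle) (hO : ∀ B, J.fin B ∈ O) : ¬ Null f O := by
  classical
  intro hnull
  obtain ⟨S, hS, hsum⟩ := hnull (1 / 2 / 2 ^ d) (by positivity)
  by_cases h0 : [] ∈ S
  · have h1 : ENNReal.ofReal (2 ^ (f 0 - (0 : ℕ))) ≤ ENNReal.ofReal (1 / 2 / 2 ^ d) :=
      (ENNReal.le_tsum (⟨[], h0⟩ : S)
        (f := fun σ : S => ENNReal.ofReal (2 ^ (f σ.1.length - σ.1.length)))).trans hsum
    have h2 := (ENNReal.ofReal_le_ofReal_iff (by positivity)).1 h1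
    have h3 : (2 : ℝ) ^ (f 0 - (0 : ℕ)) * 2 ^ d ≤ 1 / 2 := by
      rw [le_div_iff₀ (by positivity)] at h2
      exact h2
    rw [← Real.rpow_add (by norm_num)] at h3
    have h4 : (1 : ℝ) ≤ 2 ^ (f 0 - (0 : ℕ) + d) := by
      apply Real.one_le_rpow (by norm_num)
      push_cast
      linarith
    exact absurd (h4.trans h3) (by norm_num)
  · have h1 : (Set.univ : Set Oracle) ⊆ ⋃ σ : S, {B | Extends (J.fin B) σ.1} := by
      intro B _
      obtain ⟨σ, hσ, h⟩ := hS (J.fin B) (hO B)
      exact Set.mem_iUnion.mpr ⟨⟨σ, hσ⟩, h⟩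
    have h2 : (1 : ENNReal) ≤ ENNReal.ofReal (1 / 2) := by
      calc (1 : ENNReal) = ranO Set.univ := measure_univ.symm
        _ ≤ ranO (⋃ σ : S, {B | Extends (J.fin B) σ.1}) := measure_mono h1
        _ ≤ ∑' σ : S, ranO {B | Extends (J.fin B) σ.1} := measure_iUnion_le _
        _ ≤ ∑' σ : S, ENNReal.ofReal (2 ^ d) *
            ENNReal.ofReal (2 ^ (f σ.1.length - σ.1.length)) := by
          refine ENNReal.tsum_le_tsum (fun σ => (J.ranO_le σ.1).trans ?_)
          rw [← ENNReal.ofReal_mul (by positivity), ← Real.rpow_add (by norm_num)]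
          apply ENNReal.ofReal_le_ofReal
          apply Real.rpow_le_rpow_of_exponent_le (by norm_num)
          have h3 : 1 ≤ σ.1.length := by
            rw [Nat.one_le_iff_ne_zero]
            intro h4
            rw [List.length_eq_zero_iff] at h4
            exact h0 (h4 ▸ σ.2)
          have := hc σ.1.length h3
          linarith
        _ = ENNReal.ofReal (2 ^ d) * ∑' σ : S,
            ENNReal.ofReal (2 ^ (f σ.1.length - σ.1.length)) := ENNReal.tsum_mul_left
        _ ≤ ENNReal.ofReal (2 ^ d) * ENNReal.ofReal (1 / 2 / 2 ^ d) := by gcongr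
        _ = ENNReal.ofReal (1 / 2) := by
          rw [← ENNReal.ofReal_mul (by positivity)]
          congr 1
          field_simp
    rw [← ENNReal.ofReal_one] at h2
    have h3 := (ENNReal.ofReal_le_ofReal_iff (by norm_num)).1 h2
    norm_num at h3

end Pool.Agent.TH707.EC
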