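import Pool.Agent.TH707.EC.DefsG
import Pool.Agent.TH707.EC.Chernoff
import Pool.Agent.TH707.EC.NullE

/-!
# The oracle generator fails with small probability
-/

set_option autoImplicit false

namespace Pool.Agent.TH707.EC

open Pool.Agent.NPC Pool.Agent.H620R2.Gauge Finset MeasureTheory Filter
open Pool.Agent.H622R2.Ckt
open H568R2

/-- the question for bit number `j` of the output for the seed `s` -/
def qu (m : ℕ) (s : List Bool) (j : ℕ) : List Bool :=
  s ++ (List.replicate j true ++ List.replicate (2 * m - j) false)

/-- the generator -/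
def gen (A : Oracle) (m : ℕ) (s : List Bool) : List Bool :=
  (List.range m).map (fun j => A (qu m s j))

theorem length_gen (A : Oracle) (m : ℕ) (s : List Bool) : (gen A m s).length = m := by
  simp [gen]

theorem length_qu {m j : ℕ} (hj : j < m) (s : List Bool) : (qu m s j).length = s.length + 2 * m := by
  unfold qu
  rw [List.length_append, List.length_append, List.length_replicate, List.length_replicate]
  omega

theorem qu_inj {m d : ℕ} {s s' : List Bool} (hs : s.length = d) (hs' : s'.length = d) {j j' : ℕ}
    (h : qu m s j = qu m s' j') : s = s' ∧ j = j' := by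
  unfold qu at h
  obtain ⟨h1, h2⟩ := List.append_inj h (by rw [hs, hs'])
  refine ⟨h1, ?_⟩
  have h3 := congrArg (List.count true) h2
  simpa [List.count_append, List.count_replicate] using h3

theorem frac_eq (n : ℕ) (p : List Bool → Prop)
    [DecidablePred fun f : Fin n → Bool => p (List.ofFn f)] :
    frac n p = ((univ.filter fun f : Fin n → Bool => p (List.ofFn f)).card : ℝ) / 2 ^ n := by
  unfold frac
  have h1 : {x : List Bool | x.length = n ∧ p x} =
      List.ofFn '' (((univ.filter fun f : Fin n → Bool => p (List.ofFn f)) :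
        Finset (Fin n → Bool)) : Set (Fin n → Bool)) := by
    ext x
    simp only [Set.mem_ofPred_eq, Set.mem_image, Finset.coe_filter, mem_univ, true_and]
    constructor
    · rintro ⟨rfl, h⟩
      refine ⟨fun i => x.get i, ?_, List.ofFn_get x⟩
      rw [List.ofFn_get x]
      exact h
    · rintro ⟨f, h, rfl⟩
      exact ⟨List.length_ofFn, h⟩
  rw [h1, Set.ncard_image_of_injective _ List.ofFn_injective, Set.ncard_coe_finset]

/-- the circuit distinguishes -/
def EvK (d m N : ℕ) (C : Circuit) (a : Fin N → Bool) : Prop :=
  1 / 8 < |frac d (fun s => C.eval (orc N a) (gen (orc N a) m s) = true) -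
    frac m (fun x => C.eval (orc N a) x = true)|

/-- some circuit distinguishes -/
def EvG (d m N : ℕ) (a : Fin N → Bool) : Prop := ∃ C : Circuit, C.size ≤ m ∧ EvK d m N C a

open Classical in
theorem evK_bound {d m N : ℕ} (hN : 2 ^ (d + 2 * m + 1) ≤ N) {C : Circuit}
    (hC : C.size ≤ m) :
    Ex unif (fun a : Fin N → Bool => if EvK d m N C a then (1 : ℝ) else 0) ≤
      2 * Real.exp (-(2 ^ d : ℝ) / 256) := by
  -- seeds as a type
  set S : Type := Fin d → Bool with hS
  set V : Type := Fin m → Bool with hV
  have hidx : ∀ (s : S) (j : Fin m), idx (qu m (List.ofFn s) j) < N := by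
    intro s j
    have h1 := idx_lt (qu m (List.ofFn s) j)
    rw [length_qu j.2, List.length_ofFn] at h1
    omega
  set pos : S × Fin m → Fin N := fun p => ⟨idx (qu m (List.ofFn p.1) p.2), hidx p.1 p.2⟩ with hpos
  have hpinj : Function.Injective pos := by
    rintro ⟨s, j⟩ ⟨s', j'⟩ h
    have h1 : idx (qu m (List.ofFn s) j) = idx (qu m (List.ofFn s') j') := congrArg Fin.val h
    have h2 := congrArg str h1
    rw [str_idx, str_idx] at h2
    obtain ⟨h3, h4⟩ := qu_inj (d := d) List.length_ofFn List.length_ofFn h2
    rw [List.ofFn_injective h3, Fin.ext h4]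
  -- the values off the positions
  set B : Type := {i : Fin N // i ∉ Set.range pos} → Bool with hB
  let ext : B → (Fin N → Bool) := fun b i => if h : i ∉ Set.range pos then b ⟨i, h⟩ else false
  let T : B → Finset V := fun b => univ.filter fun v => C.eval (orc N (ext b)) (List.ofFn v) = true
  let off : (Fin N → Bool) → B := fun a i => a i.1
  let phi : (Fin N → Bool) → (S → V) := fun a s j => a (pos (s, j))
  have hev : ∀ (a : Fin N → Bool) (x : List Bool),
      C.eval (orc N a) x = C.eval (orc N (ext (off a))) x := by
    intro a x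
    refine eval_local C _ _ (fun y hy => ?_) x
    unfold orc
    by_cases h2 : idx y < N
    · rw [dif_pos h2, dif_pos h2]
      have h3 : (⟨idx y, h2⟩ : Fin N) ∉ Set.range pos := by
        rintro ⟨⟨s, j⟩, h4⟩
        have h5 : idx (qu m (List.ofFn s) j) = idx y := congrArg Fin.val h4
        have h6 := congrArg str h5
        rw [str_idx, str_idx] at h6
        have h7 := congrArg List.length h6
        rw [length_qu j.2] at h7
        omega
      simp only [ext, off, dif_pos h3]
    · rw [dif_neg h2, dif_neg h2]
  have hgen : ∀ (a : Fin N → Bool) (s : S), gen (orc N a) m (List.ofFn s) = List.ofFn (phi a s) := by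
    intro a s
    apply List.ext_getElem
    · rw [length_gen, List.length_ofFn]
    · intro i h1 h2
      rw [length_gen] at h1
      simp only [gen, List.getElem_map, List.getElem_range, List.getElem_ofFn, phi]
      unfold orc
      rw [dif_pos (hidx s ⟨i, h1⟩)]
  have hcS : (Fintype.card S : ℝ) = 2 ^ d := by simp [hS]
  have hcV : (Fintype.card V : ℝ) = 2 ^ m := by simp [hV]
  have hbad : ∀ a : Fin N → Bool, EvK d m N C a →
      (Fintype.card S : ℝ) / 8 < |((univ.filter fun s => phi a s ∈ T (off a)).card : ℝ) -
        (T (off a)).card / Fintype.card V * Fintype.card S| := by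
    intro a ha
    unfold EvK at ha
    rw [frac_eq, frac_eq] at ha
    have h1 : (univ.filter fun f : Fin d → Bool =>
        C.eval (orc N a) (gen (orc N a) m (List.ofFn f)) = true) =
        univ.filter fun s => phi a s ∈ T (off a) := by
      ext s
      simp only [mem_filter, mem_univ, true_and, T]
      rw [hgen a s, hev a]
    have h2 : (univ.filter fun f : Fin m → Bool => C.eval (orc N a) (List.ofFn f) = true) =
        T (off a) := by
      ext v
      simp only [mem_filter, mem_univ, true_and, T]
      rw [hev a]
    rw [h1, h2] at ha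
    rw [hcS, hcV]
    have h3 : (0 : ℝ) < 2 ^ d := by positivity
    have h4 : ((univ.filter fun s => phi a s ∈ T (off a)).card : ℝ) -
        (T (off a)).card / 2 ^ m * 2 ^ d =
        (((univ.filter fun s => phi a s ∈ T (off a)).card : ℝ) / 2 ^ d -
          (T (off a)).card / 2 ^ m) * 2 ^ d := by
      field_simp
    rw [h4, abs_mul, abs_of_pos h3]
    have h5 := mul_lt_mul_of_pos_right ha h3
    linarith
  -- counting
  have hcard : ((univ.filter fun a : Fin N → Bool => EvK d m N C a).card : ℝ) ≤
      Fintype.card B * (2 * ((Fintype.card V : ℝ) ^ Fintype.card S *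
        Real.exp (-(Fintype.card S : ℝ) / 256))) := by
    have h1 : (univ.filter fun a : Fin N → Bool => EvK d m N C a).card ≤
        ((univ : Finset B).sigma fun b => univ.filter fun φ : S → V =>
          (Fintype.card S : ℝ) / 8 < |((univ.filter fun s => φ s ∈ T b).card : ℝ) -
            (T b).card / Fintype.card V * Fintype.card S|).card := by
      refine card_le_card_of_injOn (fun a => (⟨off a, phi a⟩ : Σ _ : B, (S → V))) ?_ ?_
      · intro a ha
        rw [mem_coe, mem_filter] at ha
        rw [mem_coe, mem_sigma]
        exact ⟨mem_univ _, mem_filter.2 ⟨mem_univ _, hbad a ha.2⟩⟩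
      · intro a _ b _ h
        simp only [Sigma.mk.injEq, heq_eq_eq] at h
        obtain ⟨h2, h3⟩ := h
        funext i
        by_cases hi : i ∈ Set.range pos
        · obtain ⟨⟨s, j⟩, rfl⟩ := hi
          exact congrFun (congrFun h3 s) j
        · exact congrFun h2 ⟨i, hi⟩
    have h2 := h1
    rw [card_sigma] at h2
    have h3 : ((∑ b : B, (univ.filter fun φ : S → V =>
          (Fintype.card S : ℝ) / 8 < |((univ.filter fun s => φ s ∈ T b).card : ℝ) -
            (T b).card / Fintype.card V * Fintype.card S|).card : ℕ) : ℝ) ≤
        ∑ _b : B, (2 * ((Fintype.card V : ℝ) ^ Fintype.card S *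
          Real.exp (-(Fintype.card S : ℝ) / 256))) := by
      push_cast
      exact sum_le_sum fun b _ => card_dev (T b)
    refine (Nat.cast_le.2 h2).trans (h3.trans (le_of_eq ?_))
    rw [sum_const, card_univ, nsmul_eq_mul]
  have hcB : Fintype.card B * (Fintype.card V) ^ Fintype.card S = 2 ^ N := by
    have h1 : Fintype.card {i : Fin N // i ∉ Set.range pos} = N - Fintype.card (S × Fin m) := by
      rw [Fintype.card_subtype_compl, Fintype.card_fin]
      congr 1
      rw [← Set.card_range_of_injective hpinj]
    have h2 : Fintype.card (S × Fin m) ≤ N := by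
      have := Fintype.card_le_of_injective pos hpinj
      rwa [Fintype.card_fin] at this
    have h3 : Fintype.card B = 2 ^ (N - Fintype.card (S × Fin m)) := by
      rw [← h1]
      exact (Fintype.card_fun).trans (by rw [Fintype.card_bool])
    have h4 : Fintype.card V = 2 ^ m := by simp [hV]
    rw [h3, h4, ← pow_mul, ← pow_add]
    congr 1
    rw [Fintype.card_prod, Fintype.card_fin] at h2 ⊢
    rw [mul_comm m]
    omega
  rw [← card_of_Ex]
  have h5 : (Fintype.card B : ℝ) * (Fintype.card V : ℝ) ^ Fintype.card S = 2 ^ N := by
    exact_mod_cast hcB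
  calc ((univ.filter fun a : Fin N → Bool => EvK d m N C a).card : ℝ) * 2 ^ (-(N : ℝ))
      ≤ (Fintype.card B * (2 * ((Fintype.card V : ℝ) ^ Fintype.card S *
        Real.exp (-(Fintype.card S : ℝ) / 256)))) * 2 ^ (-(N : ℝ)) :=
        mul_le_mul_of_nonneg_right hcard (by positivity)
    _ = ((Fintype.card B : ℝ) * (Fintype.card V : ℝ) ^ Fintype.card S) * 2 ^ (-(N : ℝ)) *
        (2 * Real.exp (-(Fintype.card S : ℝ) / 256)) := by ring
    _ = 2 * Real.exp (-(2 ^ d : ℝ) / 256) := by
        rw [h5, hcS, Real.rpow_neg (by norm_num), Real.rpow_natCast,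
          mul_inv_cancel₀ (by positivity), one_mul]

open Classical in
theorem evG_bound {d m N : ℕ} (hN : 2 ^ (d + 2 * m + 1) ≤ N) :
    Ex unif (fun a : Fin N → Bool => if EvG d m N a then (1 : ℝ) else 0) ≤
      nC m m * (2 * Real.exp (-(2 ^ d : ℝ) / 256)) := by
  obtain ⟨F, hF1, hF2⟩ := exists_circuits m m
  have h1 : ∀ a : Fin N → Bool, (if EvG d m N a then (1 : ℝ) else 0) ≤
      ∑ C ∈ F.filter (fun C => C.size ≤ m), if EvK d m N C a then (1 : ℝ) else 0 := by
    intro a
    by_cases h : EvG d m N a
    · rw [if_pos h]
      obtain ⟨C, hC, hE⟩ := h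
      obtain ⟨C', hC', hs, hev⟩ := hF2 C hC
      have h3 : EvK d m N C' a := by
        unfold EvK at hE ⊢
        have e1 : frac d (fun s => C'.eval (orc N a) (gen (orc N a) m s) = true) =
            frac d (fun s => C.eval (orc N a) (gen (orc N a) m s) = true) := by
          have e0 : ∀ s, C'.eval (orc N a) (gen (orc N a) m s) =
              C.eval (orc N a) (gen (orc N a) m s) := fun s =>
            hev (orc N a) _ (length_gen _ _ _)
          simp only [e0]
        have e2 : frac m (fun x => C'.eval (orc N a) x = true) =
            frac m (fun x => C.eval (orc N a) x = true) := by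
          unfold frac
          congr 3
          ext x
          constructor
          · rintro ⟨hx, h⟩
            exact ⟨hx, (hev (orc N a) x hx).symm.trans h⟩
          · rintro ⟨hx, h⟩
            exact ⟨hx, (hev (orc N a) x hx).trans h⟩
        rw [e1, e2]
        exact hE
      refine le_trans ?_ (single_le_sum (f := fun C => if EvK d m N C a then (1 : ℝ) else 0)
        (fun C _ => by split_ifs <;> norm_num) (mem_filter.2 ⟨hC', hs⟩))
      simp only [if_pos h3]
      exact le_rfl
    · rw [if_neg h]
      exact sum_nonneg fun C _ => by split_ifs <;> norm_num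
  have hu : ∀ b, 0 ≤ unif b := fun b => by unfold unif; norm_num
  refine (Ex_mono hu h1).trans ?_
  rw [Ex_sum]
  refine (sum_le_sum fun C hC => evK_bound hN (mem_filter.1 hC).2).trans ?_
  rw [sum_const, nsmul_eq_mul]
  refine mul_le_mul_of_nonneg_right ?_ (by positivity)
  exact_mod_cast (card_le_card (filter_subset _ _)).trans hF1

end Pool.Agent.TH707.EC
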